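import Pool.Agent.Lib.MP_e46711_an.H97.Loc

/-!
Module C6: classification of the nonnegative solutions at `L1`.
-/

open Set Filter Topology MeasureTheory
open scoped ContDiff

namespace Pool.Agent.Lib.MP_e46711_an
namespace H97

/-- conclusion of `T2Statement` -/
def Concl (P : Par) (ε : ℝ) (u : ℝ → ℝ) : Prop :=
  (∀ s, u s = 0) ∨ (∀ s, u s = 1) ∨
    ∃ α β, P.s8 ε < α ∧ α < β ∧ β < P.s9 ε ∧ ∀ s ∈ Icc α β, u s = 0

/-- the averages of nonnegative solutions are bounded -/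
lemma av_bound (hPas : PassiveStatement) (P : Par) : ∃ K > 0, ∀ᶠ ε in 𝓝[>] (0:ℝ),
    ∀ h, P.IsRing ε h → ∀ u F, Sol P.p P.L1 (P.ell ε) h u F → (∀ s, 0 ≤ u s) →
      |P.av ε u| ≤ K ∧ |P.bv ε u| ≤ K := by
  obtain ⟨C1, hC1, hev1⟩ := mass_total hPas P
  have hM := P.hM
  have hm := P.hm
  have hp := P.hp0
  have hp1 := P.hp1
  have hL1 := L1_pos P
  refine ⟨2 / P.M + 2 / P.m, by positivity, ?_⟩
  filter_upwards [hev1, ev_pos, ev_small C1 one_pos] with ε hmass hε hε1 h H u F S hu0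
  have o := order P hε
  have hc := ring_cont H
  have hpos := H.pos
  have h0 : ∀ r, 0 ≤ h r := fun r => (hpos r).le
  have hℓ : 0 < P.ell ε := by linarith
  have hcu := sol_cont S
  have hcg := (continuous_gg hp hp1).comp hcu
  obtain ⟨hA1, hA2, hm1, hm2⟩ := hmass h H
  have hmean := sol_mean hp hp1 S hc hpos hℓ.le hL1
  -- tangent inequality
  have hIA : ∫ r in (0:ℝ)..(P.ell ε), h r * u r ≤ ∫ r in (0:ℝ)..(P.ell ε), h r := by
    have h1 : ∫ r in (0:ℝ)..(P.ell ε), ((1 - P.p) * (h r * u r) - (1 - P.p) * h r)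
        ≤ ∫ r in (0:ℝ)..(P.ell ε), h r * gg P.p (u r) := by
      refine intervalIntegral.integral_mono_on hℓ.le
        ((((hc.mul hcu).intervalIntegrable _ _).const_mul _).sub
          ((hc.intervalIntegrable _ _).const_mul _))
        ((hc.mul hcg).intervalIntegrable _ _) fun r _ => ?_
      have h2 : u r ^ P.p ≤ 1 + P.p * (u r - 1) := by
        have := rpow_one_add_le_one_add_mul_self (by linarith [hu0 r] : -1 ≤ u r - 1)
          hp.le hp1.le
        rwa [show 1 + (u r - 1) = u r by ring] at this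
      have h3 : (1 - P.p) * u r - (1 - P.p) ≤ gg P.p (u r) := by
        rw [gg_of_nonneg hp (hu0 r)]; linarith
      calc (1 - P.p) * (h r * u r) - (1 - P.p) * h r = h r * ((1 - P.p) * u r - (1 - P.p)) := by
            ring
        _ ≤ _ := mul_le_mul_of_nonneg_left h3 (h0 r)
    have i1 : IntervalIntegrable (fun r => (1 - P.p) * (h r * u r)) volume 0 (P.ell ε) :=
      ((hc.mul hcu).intervalIntegrable _ _).const_mul _
    rw [hmean, intervalIntegral.integral_sub i1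
      ((hc.intervalIntegrable _ _).const_mul _), intervalIntegral.integral_const_mul,
      intervalIntegral.integral_const_mul] at h1
    have hq : 0 < 1 - P.p := by linarith
    have h4 : (1 - P.p) * ∫ r in (0:ℝ)..(P.ell ε), h r * u r
        ≤ (1 - P.p) * ∫ r in (0:ℝ)..(P.ell ε), h r := by linarith
    exact le_of_mul_le_mul_left h4 hq
  have hI2 : ∫ r in (0:ℝ)..(P.ell ε), h r * u r ≤ 2 / ε := by
    have : C1 ≤ 1 / ε := by
      rw [le_div_iff₀ hε]; exact hε1.le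
    have e : 2 / ε = 1 / ε + 1 / ε := by ring
    rw [e]; linarith
  have hnn : ∀ a b, a ≤ b → 0 ≤ ∫ r in a..b, h r * u r := fun a b hab =>
    intervalIntegral.integral_nonneg hab fun r _ => mul_nonneg (h0 r) (hu0 r)
  have hnu : ∀ a b, a ≤ b → 0 ≤ ∫ r in a..b, u r := fun a b hab =>
    intervalIntegral.integral_nonneg hab fun r _ => hu0 r
  have hs := split6 (P := P) hε (f := fun r => h r * u r) ((hc.mul hcu).intervalIntegrable _ _)
  have g1 := hnn 0 (P.s1 ε) (by linarith)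
  have g2 := hnn (P.s1 ε) (P.s4 ε) (by linarith)
  have g3 := hnn (P.s4 ε) (P.s5 ε) (by linarith)
  have g4 := hnn (P.s5 ε) (P.s6 ε) (by linarith)
  have g5 := hnn (P.s6 ε) (P.s14 ε) (by linarith)
  have g6 := hnn (P.s14 ε) (P.ell ε) (by linarith)
  have hHa := intH H hε u
  have hLb := intL H hε u
  have ha0 : 0 ≤ P.av ε u := by
    have := hnu 0 (P.s1 ε) (by linarith)
    have := hnu (P.s14 ε) (P.ell ε) (by linarith)
    exact div_nonneg (by linarith) hε.le
  have hb0 : 0 ≤ P.bv ε u := div_nonneg (hnu _ _ (by linarith)) hε.le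
  have ha1 : P.M / ε * P.av ε u ≤ 2 / ε := by
    have : P.M / ε * P.av ε u = P.M / ε * ((((∫ r in (0:ℝ)..(P.s1 ε), u r))
        + ∫ r in (P.s14 ε)..(P.ell ε), u r) / ε) := rfl
    rw [this, ← hHa]; linarith
  have hb1 : P.m / ε * P.bv ε u ≤ 2 / ε := by
    have : P.m / ε * P.bv ε u = P.m / ε * ((∫ r in (P.s4 ε)..(P.s5 ε), u r) / ε) := rfl
    rw [this, ← hLb]; linarith
  have ha2 : P.av ε u ≤ 2 / P.M := by
    rw [le_div_iff₀ hM]
    rw [div_mul_eq_mul_div, div_le_div_iff_of_pos_right hε] at ha1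
    linarith
  have hb2 : P.bv ε u ≤ 2 / P.m := by
    rw [le_div_iff₀ hm]
    rw [div_mul_eq_mul_div, div_le_div_iff_of_pos_right hε] at hb1
    linarith
  have q1 : 0 < 2 / P.M := by positivity
  have q2 : 0 < 2 / P.m := by positivity
  rw [abs_of_nonneg ha0, abs_of_nonneg hb0]
  exact ⟨by linarith, by linarith⟩

/-- near a dead pair -/
lemma loc_dead (hCmp : CompareStatement) (hDead : DeadBarrier) (P : Par) (C x y : ℝ)
    (hxy : P.Dead P.L1 x y) (hx0 : 0 ≤ x) (hy0 : 0 ≤ y) :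
    ∃ η > 0, ∀ᶠ ε in 𝓝[>] (0:ℝ),
    ∀ h, P.IsRing ε h → ∀ u F, Sol P.p P.L1 (P.ell ε) h u F → (∀ s, 0 ≤ u s) →
      (∀ s ∈ Icc 0 (P.s1 ε) ∪ Icc (P.s14 ε) (P.ell ε), |u s - u 0| ≤ C * ε) →
      (∀ s ∈ Icc (P.s4 ε) (P.s5 ε), |u s - u (P.s4 ε)| ≤ C * ε) →
      |u 0 - x| < η → |u (P.s4 ε) - y| < η → Concl P ε u := by
  obtain ⟨ρ, hρ, hev⟩ := hDead P x y hxy hx0 hy0
  refine ⟨ρ / 2, by positivity, ?_⟩
  filter_upwards [hev, hCmp P, ev_pos, ev_small C (show (0:ℝ) < ρ / 2 by positivity)]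
    with ε hbar hcmp hε hCε h H u F S hu0 hH hL hx hy
  have o := order P hε
  obtain ⟨U, hU, hU14, hU5, α, β, hα, hαβ, hβ, hz⟩ := hbar h H
  have h14 := abs_le.1 (hH (P.s14 ε) (Or.inr ⟨le_rfl, by linarith⟩))
  have h5 := abs_le.1 (hL (P.s5 ε) ⟨by linarith, le_rfl⟩)
  have hx' := abs_lt.1 hx
  have hy' := abs_lt.1 hy
  have hle := hcmp h H P.L1 ⟨(L1_pos P).le, P.hL12.le⟩ u F S U hU (by linarith) (by linarith)
  refine Or.inr (Or.inr ⟨α, β, hα, hαβ, hβ, fun s hs => ?_⟩)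
  have h1 := hle s ⟨by linarith [hs.1], by linarith [hs.2]⟩
  rw [hz s hs] at h1
  exact le_antisymm h1 (hu0 s)

/-- Module C6 -/
theorem t2_holds (hPas : PassiveStatement) (hDir : DirStatement) (hApp : ApproxStatement)
    (hCmp : CompareStatement) (hDead : DeadBarrier) : T2Statement := by
  intro P hNet
  have hp := P.hp0
  have hp1 := P.hp1
  obtain ⟨K, hK, hevK⟩ := av_bound hPas P
  obtain ⟨C, hC, hevC⟩ := hApp P K hK
  -- all solutions satisfy the approximate network equations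
  let α : Type := (ℝ → ℝ) × (ℝ → ℝ) × (ℝ → ℝ)
  let Z : ℝ → α → ℝ × ℝ := fun ε a => (a.2.1 0, a.2.1 (P.s4 ε))
  let Q : ℝ → α → Prop := fun ε a => P.IsRing ε a.1 →
    Sol P.p P.L1 (P.ell ε) a.1 a.2.1 a.2.2 → (∀ s, 0 ≤ a.2.1 s) → Concl P ε a.2.1
  have hbox : ∀ᶠ ε in 𝓝[>] (0:ℝ), ∀ a : α, Z ε a ∈ Icc 0 (K + 1) ×ˢ Icc 0 (K + 1) → Q ε a := by
    refine compact_reduce (isCompact_Icc.prod isCompact_Icc) Z Q ?_
    rintro ⟨x, y⟩ ⟨hx, hy⟩
    simp only at hx hy
    by_cases hnet : P.NetSol P.L1 x y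
    · rcases hNet.N1 x y hx.1 hy.1 hnet with ⟨rfl, rfl⟩ | ⟨rfl, rfl⟩ | hd
      · -- (0,0)
        refine ⟨Iio (1 / 3) ×ˢ Iio (1 / 3), prod_mem_nhds (Iio_mem_nhds (by norm_num))
          (Iio_mem_nhds (by norm_num)), ?_⟩
        filter_upwards [loc_zero hPas P C, hevC, hevK] with ε h1 h2 h3
        rintro ⟨h, u, F⟩ ⟨hu1, hu2⟩ H S hu0
        obtain ⟨ka, kb⟩ := h3 h H u F S hu0
        obtain ⟨_, hH, _, hL, _⟩ := h2 h H P.L1 ⟨(L1_pos P).le, P.hL12.le⟩ u F S ka kb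
        exact Or.inl (h1 h H u F S hu0 hH hL hu1 hu2)
      · -- (1,1)
        obtain ⟨η, hη, hev⟩ := loc_one hPas hDir P C
        refine ⟨Metric.ball 1 η ×ˢ Metric.ball 1 η, prod_mem_nhds (Metric.ball_mem_nhds _ hη)
          (Metric.ball_mem_nhds _ hη), ?_⟩
        filter_upwards [hev, hevC, hevK] with ε h1 h2 h3
        rintro ⟨h, u, F⟩ ⟨hu1, hu2⟩ H S hu0
        obtain ⟨ka, kb⟩ := h3 h H u F S hu0
        obtain ⟨_, hH, _, hL, _⟩ := h2 h H P.L1 ⟨(L1_pos P).le, P.hL12.le⟩ u F S ka kb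
        refine Or.inr (Or.inl (h1 h H u F S hu0 hH hL ?_ ?_))
        · simpa [Real.dist_eq] using hu1
        · simpa [Real.dist_eq] using hu2
      · -- dead
        obtain ⟨η, hη, hev⟩ := loc_dead hCmp hDead P C x y hd hx.1 hy.1
        refine ⟨Metric.ball x η ×ˢ Metric.ball y η, prod_mem_nhds (Metric.ball_mem_nhds _ hη)
          (Metric.ball_mem_nhds _ hη), ?_⟩
        filter_upwards [hev, hevC, hevK] with ε h1 h2 h3
        rintro ⟨h, u, F⟩ ⟨hu1, hu2⟩ H S hu0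
        obtain ⟨ka, kb⟩ := h3 h H u F S hu0
        obtain ⟨_, hH, _, hL, _⟩ := h2 h H P.L1 ⟨(L1_pos P).le, P.hL12.le⟩ u F S ka kb
        refine h1 h H u F S hu0 hH hL ?_ ?_
        · simpa [Real.dist_eq] using hu1
        · simpa [Real.dist_eq] using hu2
    · -- not a solution of the network equations
      have hq : 0 < min (1 / 2) P.p := lt_min (by norm_num) hp
      have hgc := continuous_gg hp hp1
      rw [Par.NetSol, not_and_or] at hnet
      rcases hnet with hn | hn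
      · obtain ⟨U, hU, hev⟩ := near_net (f := fun z : ℝ × ℝ =>
          z.1 - z.2 - P.L1 * P.M * gg P.p z.1)
          ((continuous_fst.sub continuous_snd).sub
            (continuous_const.mul (hgc.comp continuous_fst))) (z := (x, y))
          (fun h => hn (by simp only at h; linarith)) (C := C) hq
        refine ⟨U, hU, ?_⟩
        filter_upwards [hev, hevC, hevK] with ε h1 h2 h3
        rintro ⟨h, u, F⟩ hz H S hu0
        obtain ⟨ka, kb⟩ := h3 h H u F S hu0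
        obtain ⟨_, _, _, _, _, _, e1, e2⟩ :=
          h2 h H P.L1 ⟨(L1_pos P).le, P.hL12.le⟩ u F S ka kb
        exact absurd e1 (h1 _ hz)
      · obtain ⟨U, hU, hev⟩ := near_net (f := fun z : ℝ × ℝ =>
          z.2 - z.1 - P.L1 * P.m * gg P.p z.2)
          ((continuous_snd.sub continuous_fst).sub
            (continuous_const.mul (hgc.comp continuous_snd))) (z := (x, y))
          (fun h => hn (by simp only at h; linarith)) (C := C) hq
        refine ⟨U, hU, ?_⟩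
        filter_upwards [hev, hevC, hevK] with ε h1 h2 h3
        rintro ⟨h, u, F⟩ hz H S hu0
        obtain ⟨ka, kb⟩ := h3 h H u F S hu0
        obtain ⟨_, _, _, _, _, _, e1, e2⟩ :=
          h2 h H P.L1 ⟨(L1_pos P).le, P.hL12.le⟩ u F S ka kb
        exact absurd e2 (h1 _ hz)
  filter_upwards [hbox, hevC, hevK, ev_small C one_pos] with ε h1 h2 h3 h4 h H u F S hu0
  obtain ⟨ka, kb⟩ := h3 h H u F S hu0
  obtain ⟨_, _, ea, _, eb, _⟩ := h2 h H P.L1 ⟨(L1_pos P).le, P.hL12.le⟩ u F S ka kb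
  have ka' := abs_le.1 ka
  have kb' := abs_le.1 kb
  have ea' := abs_le.1 ea
  have eb' := abs_le.1 eb
  exact h1 (h, u, F) ⟨⟨hu0 0, by simp only [Z]; linarith⟩,
    ⟨hu0 (P.s4 ε), by simp only [Z]; linarith⟩⟩ H S hu0

end H97
end Pool.Agent.Lib.MP_e46711_an
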