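import Pool.Agent.Lib.MP_e46711_an.H97.Ring2

/-!
Module C6, local part: solutions at `L1` near `(0,0)` and `(1,1)`.
-/

open Set Filter Topology MeasureTheory
open scoped ContDiff

namespace Pool.Agent.Lib.MP_e46711_an
namespace H97

/-! ### positive part -/

lemma deriv_posPart {u : ℝ → ℝ} {k : ℝ} (hu : Continuous u) (s : ℝ) :
    deriv (fun s => max (u s - k) 0) s = if k < u s then deriv u s else 0 := by
  by_cases h : k < u s
  · rw [if_pos h]
    have h1 : (fun s => max (u s - k) 0) =ᶠ[𝓝 s] fun s => u s - k := by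
      filter_upwards [hu.continuousAt.eventually (lt_mem_nhds h)] with t ht
      exact max_eq_left (by linarith)
    rw [h1.deriv_eq, deriv_sub_const]
  · rw [if_neg h]
    refine IsLocalMin.deriv_eq_zero (Eventually.of_forall fun t => ?_)
    simp only
    rw [max_eq_right (by linarith : u s - k ≤ 0)]
    exact le_max_right _ _

lemma lip_posPart {u : ℝ → ℝ} {a b : ℝ} (k : ℝ) (hu : Lip u a b) :
    Lip (fun s => max (u s - k) 0) a b := by
  obtain ⟨K, hK⟩ := hu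
  refine ⟨K, LipschitzOnWith.of_dist_le_mul fun x hx y hy => ?_⟩
  have h1 := hK.dist_le_mul x hx y hy
  rw [Real.dist_eq] at h1 ⊢
  refine le_trans ?_ h1
  have := abs_max_sub_max_le_abs (u x - k) (u y - k) 0
  rwa [show u x - k - (u y - k) = u x - u y by ring] at this

/-- a nonnegative bounded solution with mean zero nonlinearity vanishes if it is `< 1` -/
lemma zero_of_lt_one {p lam ℓ : ℝ} {h u F : ℝ → ℝ} (hp : 0 < p) (hp1 : p < 1)
    (S : Sol p lam ℓ h u F) (hc : Continuous h) (h0 : ∀ s, 0 < h s) (hℓ : 0 < ℓ) (hlam : 0 < lam)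
    (hu0 : ∀ s, 0 ≤ u s) (hu1 : ∀ s ∈ Icc 0 ℓ, u s < 1) : ∀ s, u s = 0 := by
  have hm := sol_mean hp hp1 S hc h0 hℓ.le hlam
  refine forall_of_per (Q := fun x => x = 0) hℓ S.per ?_
  intro c hc'
  by_contra hne
  have hpos : 0 < u c := lt_of_le_of_ne (hu0 c) (Ne.symm hne)
  have hcont : ContinuousOn (fun r => - (h r * gg p (u r))) (Icc 0 ℓ) :=
    ((hc.mul ((continuous_gg hp hp1).comp (sol_cont S))).neg).continuousOn
  have hle : ∀ r ∈ Ioc 0 ℓ, 0 ≤ - (h r * gg p (u r)) := by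
    intro r hr
    have h2 : gg p (u r) ≤ 0 := by
      rcases (hu0 r).eq_or_lt with h3 | h3
      · rw [← h3, gg_zero]
      · exact (gg_neg_of_mem hp hp1 h3 (hu1 r ⟨hr.1.le, hr.2⟩)).le
    nlinarith [h0 r]
  have hlt : ∃ c ∈ Icc 0 ℓ, 0 < - (h c * gg p (u c)) := by
    refine ⟨c, hc', ?_⟩
    have h2 := gg_neg_of_mem hp hp1 hpos (hu1 c hc')
    nlinarith [h0 c]
  have := intervalIntegral.integral_pos hℓ hcont hle hlt
  rw [intervalIntegral.integral_neg, hm] at this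
  linarith

lemma ev_small_sq (C : ℝ) {η : ℝ} (hη : 0 < η) : ∀ᶠ ε in 𝓝[>] (0:ℝ), C * ε ^ 2 < η := by
  filter_upwards [ev_small |C| hη, ev_small 1 one_pos, ev_pos] with ε h1 h2 h3
  have h4 : C ≤ |C| := le_abs_self C
  have h5 : 0 ≤ |C| := abs_nonneg C
  have h6 : ε ^ 2 ≤ ε := by nlinarith
  calc C * ε ^ 2 ≤ |C| * ε ^ 2 := mul_le_mul_of_nonneg_right h4 (by positivity)
    _ ≤ |C| * ε := mul_le_mul_of_nonneg_left h6 h5
    _ < η := h1

/-- near `(0,0)` -/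
lemma loc_zero (hPas : PassiveStatement) (P : Par) (C : ℝ) : ∀ᶠ ε in 𝓝[>] (0:ℝ),
    ∀ h, P.IsRing ε h → ∀ u F, Sol P.p P.L1 (P.ell ε) h u F → (∀ s, 0 ≤ u s) →
      (∀ s ∈ Icc 0 (P.s1 ε) ∪ Icc (P.s14 ε) (P.ell ε), |u s - u 0| ≤ C * ε) →
      (∀ s ∈ Icc (P.s4 ε) (P.s5 ε), |u s - u (P.s4 ε)| ≤ C * ε) →
      u 0 < 1 / 3 → u (P.s4 ε) < 1 / 3 → ∀ s, u s = 0 := by
  obtain ⟨ν, hν, C1, hC1, hev⟩ := hPas P
  obtain ⟨C2, hC2, hev2⟩ := small_parts P
  have hp := P.hp0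
  have hp1 := P.hp1
  have hL1 := L1_pos P
  have hL2 := L2_pos P
  have hν0 := hν.1
  filter_upwards [hev, hev2, ev_pos, ev_small C (show (0:ℝ) < 1 / 3 by norm_num),
    ev_small_sq ((1 + ν) * P.L2 * C2) hν0] with ε hpas hsm hε hCε hsq h H u F S hu0 hH hL hx hy
  have o := order P hε
  have hc := ring_cont H
  have hpos := H.pos
  have h0 : ∀ r, 0 ≤ h r := fun r => (hpos r).le
  have hℓ : 0 < P.ell ε := by linarith
  set φ : ℝ → ℝ := fun s => max (u s - 2 / 3) 0 with hφ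
  have hcu := sol_cont S
  have hφl : Lip φ 0 (P.ell ε) := lip_posPart _ (sol_lip S hc hpos _ _)
  have hφc : Continuous φ := (hcu.sub continuous_const).max continuous_const
  have hφH : ∀ s ∈ Icc 0 (P.s1 ε) ∪ Icc (P.s14 ε) (P.ell ε), φ s = 0 := by
    intro s hs
    have := abs_le.1 (hH s hs)
    exact max_eq_right (by linarith)
  have hφL : ∀ s ∈ Icc (P.s4 ε) (P.s5 ε), φ s = 0 := by
    intro s hs
    have := abs_le.1 (hL s hs)
    exact max_eq_right (by linarith)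
  have hφ0 : φ 0 = 0 := hφH 0 (Or.inl ⟨le_rfl, by linarith⟩)
  have hφℓ : φ (P.ell ε) = 0 := hφH _ (Or.inr ⟨by linarith, le_rfl⟩)
  have hφ14 : φ (P.s14 ε) = 0 := hφH _ (Or.inr ⟨le_rfl, by linarith⟩)
  -- energy identity
  have hEn : En h φ 0 (P.ell ε) = P.L1 * ∫ r in (0:ℝ)..(P.ell ε), h r * (gg P.p (u r) * φ r) := by
    rw [← sol_test_per hp hp1 S hc hpos hℓ.le hφl (by rw [hφ0, hφℓ]), En]
    congr 1
    funext r
    rw [hφ, deriv_posPart hcu]
    split_ifs <;> ring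
  set E := En h φ 0 (P.ell ε) with hE
  have hE0 : 0 ≤ E := En_nonneg hℓ.le h0
  have hle : ∫ r in (0:ℝ)..(P.ell ε), h r * (gg P.p (u r) * φ r) ≤ Sm h φ 0 (P.ell ε) := by
    refine intervalIntegral.integral_mono_on hℓ.le
      ((hc.mul (((continuous_gg hp hp1).comp hcu).mul hφc)).intervalIntegrable _ _)
      ((hc.mul (hφc.pow 2)).intervalIntegrable _ _) fun r _ => ?_
    refine mul_le_mul_of_nonneg_left ?_ (h0 r)
    rcases le_total (u r) (2 / 3) with h1 | h1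
    · have : φ r = 0 := max_eq_right (by linarith)
      rw [this]; simp
    · have h2 : φ r = u r - 2 / 3 := max_eq_left (by linarith)
      have h3 : (2 / 3 : ℝ) ≤ u r ^ P.p := by
        calc (2 / 3 : ℝ) = (2 / 3 : ℝ) ^ (1 : ℝ) := (Real.rpow_one _).symm
          _ ≤ (2 / 3 : ℝ) ^ P.p :=
            Real.rpow_le_rpow_of_exponent_ge (by norm_num) (by norm_num) hp1.le
          _ ≤ u r ^ P.p := Real.rpow_le_rpow (by norm_num) h1 hp.le
      rw [gg_of_nonneg hp (hu0 r), h2, sq]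
      exact mul_le_mul_of_nonneg_right (by linarith) (by linarith)
  -- the pieces
  have hsplit := split6 (P := P) hε (f := fun r => h r * φ r ^ 2)
    ((hc.mul (hφc.pow 2)).intervalIntegrable _ _)
  have z : ∀ a b, a ≤ b → (∀ r ∈ Icc a b, φ r = 0) → ∫ r in a..b, h r * φ r ^ 2 = 0 := by
    intro a b hab hz
    have : ∫ r in a..b, h r * φ r ^ 2 = ∫ r in a..b, (0:ℝ) := by
      refine intervalIntegral.integral_congr fun r hr => ?_
      rw [uIcc_of_le hab] at hr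
      simp only [hz r hr]; ring
    rw [this]; simp
  rw [z 0 (P.s1 ε) (by linarith) (fun r hr => hφH r (Or.inl hr)),
    z (P.s4 ε) (P.s5 ε) (by linarith) hφL,
    z (P.s14 ε) (P.ell ε) (by linarith) (fun r hr => hφH r (Or.inr hr))] at hsplit
  have hS : Sm h φ 0 (P.ell ε) = Sm h φ (P.s1 ε) (P.s4 ε) + Sm h φ (P.s5 ε) (P.s6 ε)
      + Sm h φ (P.s6 ε) (P.s14 ε) := by
    simp only [Sm]; rw [hsplit]; ring
  have h1 := hpas h H φ (lip_mono hφl (by linarith) (by linarith))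
  rw [hφ14] at h1
  have h2 := hsm h H φ hφl hφ0
  have h3 : En h φ (P.s6 ε) (P.s14 ε) ≤ E :=
    En_mono (by linarith) (by linarith) (by linarith) hc h0 hφl
  have h4 : (1 - ν) * En h φ (P.s6 ε) (P.s14 ε) ≤ (1 - ν) * E :=
    mul_le_mul_of_nonneg_left h3 (by linarith [hν.2])
  have h5 : 0 ≤ Sm h φ 0 (P.ell ε) := Sm_nonneg hℓ.le h0
  have h6 : E ≤ P.L2 * Sm h φ 0 (P.ell ε) := by
    rw [hEn]
    calc P.L1 * _ ≤ P.L1 * Sm h φ 0 (P.ell ε) := mul_le_mul_of_nonneg_left hle hL1.le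
      _ ≤ P.L2 * Sm h φ 0 (P.ell ε) := mul_le_mul_of_nonneg_right P.hL12.le h5
  have h7 : (1 + ν) * E ≤ ((1 + ν) * P.L2 * C2 * ε ^ 2) * E + (1 - ν) * E := by
    calc (1 + ν) * E ≤ (1 + ν) * (P.L2 * Sm h φ 0 (P.ell ε)) :=
          mul_le_mul_of_nonneg_left h6 (by linarith)
      _ = (1 + ν) * P.L2 * (Sm h φ (P.s1 ε) (P.s4 ε) + Sm h φ (P.s5 ε) (P.s6 ε))
          + (1 + ν) * P.L2 * Sm h φ (P.s6 ε) (P.s14 ε) := by rw [hS]; ring
      _ ≤ (1 + ν) * P.L2 * (C2 * ε ^ 2 * E) + (1 - ν) * E := by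
          refine add_le_add (mul_le_mul_of_nonneg_left h2 (by positivity)) ?_
          linarith
      _ = _ := by ring
  have h8 : ((1 + ν) * P.L2 * C2 * ε ^ 2) * E ≤ ν * E := mul_le_mul_of_nonneg_right hsq.le hE0
  have h9 : E ≤ 0 := by
    by_contra hcon
    replace hcon := not_le.1 hcon
    nlinarith [mul_pos hν0 hcon]
  have hconst := const_of_En hℓ.le hc hpos hφl h9
  refine zero_of_lt_one hp hp1 S hc hpos hℓ hL1 hu0 fun s hs => ?_
  have h10 := hconst s hs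
  rw [hφ0] at h10
  have h11 : u s - 2 / 3 ≤ φ s := le_max_left _ _
  linarith

/-! ### near `(1,1)` -/

lemma gg_near_one {p : ℝ} (hp : 0 < p) {ν : ℝ} (hν : 0 < ν) : ∃ η > 0, η ≤ 1 / 2 ∧
    ∀ u x : ℝ, |u - 1| ≤ η → |x - 1| ≤ η → |gg p u - gg p x - (1 - p) * (u - x)| ≤ ν * |u - x| := by
  have h1 := (Real.hasStrictDerivAt_rpow_const_of_ne (one_ne_zero (α := ℝ)) p).isLittleO.def hν
  rw [Metric.eventually_nhds_iff] at h1
  obtain ⟨δ, hδ, h2⟩ := h1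
  refine ⟨min (δ / 2) (1 / 2), by positivity, min_le_right _ _, fun u x hu hx => ?_⟩
  have hu1 : |u - 1| < δ := lt_of_le_of_lt (hu.trans (min_le_left _ _)) (by linarith)
  have hx1 : |x - 1| < δ := lt_of_le_of_lt (hx.trans (min_le_left _ _)) (by linarith)
  have hu2 := abs_le.1 (hu.trans (min_le_right _ _))
  have hx2 := abs_le.1 (hx.trans (min_le_right _ _))
  have h3 := h2 (y := (u, x)) (by
    rw [Prod.dist_eq, max_lt_iff]; exact ⟨by simpa [Real.dist_eq] using hu1,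
      by simpa [Real.dist_eq] using hx1⟩)
  simp only [Real.norm_eq_abs, Real.one_rpow, mul_one] at h3
  rw [gg_of_nonneg hp (by linarith), gg_of_nonneg hp (by linarith)]
  have e : u - u ^ p - (x - x ^ p) - (1 - p) * (u - x) = -(u ^ p - x ^ p - (u - x) * p) := by ring
  rw [e, abs_neg]
  simpa [mul_comm] using h3

lemma gg_lip {p : ℝ} (hp : 0 < p) (hp1 : p < 1) {u x : ℝ} (hu : 0 ≤ u) (hx : 1 / 2 ≤ x) :
    |gg p u - gg p x - (1 - p) * (u - x)| ≤ 4 * |u - x| := by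
  have hx0 : 0 < x := by linarith
  have key : |u ^ p - x ^ p| ≤ x ^ (p - 1) * |u - x| := by
    have ex : x ^ p = x * x ^ (p - 1) := by
      rw [Real.rpow_sub_one hx0.ne']; field_simp
    rcases hu.eq_or_lt with h | h
    · subst h
      rw [Real.zero_rpow hp.ne', zero_sub, zero_sub, abs_neg, abs_neg,
        abs_of_pos (Real.rpow_pos_of_pos hx0 _), abs_of_pos hx0, ex]
      linarith [mul_comm x (x ^ (p - 1))]
    have eu : u ^ p = u * u ^ (p - 1) := by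
      rw [Real.rpow_sub_one h.ne']; field_simp
    rcases le_total u x with h1 | h1
    · have h2 := Real.rpow_le_rpow h.le h1 hp.le
      have h3 := Real.rpow_le_rpow_of_nonpos h h1 (by linarith : p - 1 ≤ 0)
      rw [abs_of_nonpos (by linarith), abs_of_nonpos (by linarith)]
      have h4 : u * x ^ (p - 1) ≤ u ^ p := by rw [eu]; exact mul_le_mul_of_nonneg_left h3 h.le
      rw [ex]; nlinarith
    · have h2 := Real.rpow_le_rpow hx0.le h1 hp.le
      have h3 := Real.rpow_le_rpow_of_nonpos hx0 h1 (by linarith : p - 1 ≤ 0)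
      rw [abs_of_nonneg (by linarith), abs_of_nonneg (by linarith)]
      have h4 : u ^ p ≤ u * x ^ (p - 1) := by rw [eu]; exact mul_le_mul_of_nonneg_left h3 h.le
      rw [ex]; nlinarith
  have h2 : x ^ (p - 1) ≤ 2 := by
    calc x ^ (p - 1) ≤ (1 / 2 : ℝ) ^ (p - 1) :=
          Real.rpow_le_rpow_of_nonpos (by norm_num) hx (by linarith)
      _ ≤ (1 / 2 : ℝ) ^ (-1 : ℝ) :=
          Real.rpow_le_rpow_of_exponent_ge (by norm_num) (by norm_num) (by linarith)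
      _ = 2 := by rw [Real.rpow_neg_one]; norm_num
  rw [gg_of_nonneg hp hu, gg_of_nonneg hp hx0.le]
  have e : u - u ^ p - (x - x ^ p) - (1 - p) * (u - x) = p * (u - x) - (u ^ p - x ^ p) := by ring
  rw [e]
  calc |p * (u - x) - (u ^ p - x ^ p)| ≤ |p * (u - x)| + |u ^ p - x ^ p| := abs_sub _ _
    _ ≤ 1 * |u - x| + 2 * |u - x| := by
        refine add_le_add ?_ (key.trans (mul_le_mul_of_nonneg_right h2 (abs_nonneg _)))
        rw [abs_mul, abs_of_pos hp]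
        exact mul_le_mul_of_nonneg_right hp1.le (abs_nonneg _)
    _ ≤ 4 * |u - x| := by linarith [abs_nonneg (u - x)]

lemma piece_sq {h D v : ℝ → ℝ} {a b κ m : ℝ} (hab : a ≤ b) (hc : Continuous h)
    (h0 : ∀ r, 0 ≤ h r) (hD : Continuous D) (hv : Continuous v) (hκ : 0 ≤ κ)
    (hDv : ∀ r ∈ Icc a b, |D r| ≤ κ * |v r|) (hm : ∫ r in a..b, h r ≤ m) :
    (∫ r in a..b, h r * D r) ^ 2 ≤ m * κ ^ 2 * ∫ r in a..b, h r * v r ^ 2 := by
  have h1 := wcs hab hc h0 (f := D) hD.continuousOn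
  have hS : 0 ≤ ∫ r in a..b, h r * v r ^ 2 :=
    intervalIntegral.integral_nonneg hab fun r _ => mul_nonneg (h0 r) (sq_nonneg _)
  have hA : 0 ≤ ∫ r in a..b, h r := intervalIntegral.integral_nonneg hab fun r _ => h0 r
  have h2 : ∫ r in a..b, h r * D r ^ 2 ≤ κ ^ 2 * ∫ r in a..b, h r * v r ^ 2 := by
    rw [← intervalIntegral.integral_const_mul]
    refine intervalIntegral.integral_mono_on hab ((hc.mul (hD.pow 2)).intervalIntegrable _ _)
      (((hc.mul (hv.pow 2)).intervalIntegrable _ _).const_mul _) fun r hr => ?_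
    have h3 : D r ^ 2 ≤ κ ^ 2 * v r ^ 2 := by
      rw [← mul_pow, ← sq_abs (D r), ← sq_abs (κ * v r), abs_mul, abs_of_nonneg hκ]
      exact pow_le_pow_left₀ (abs_nonneg _) (hDv r hr) 2
    calc h r * D r ^ 2 ≤ h r * (κ ^ 2 * v r ^ 2) := mul_le_mul_of_nonneg_left h3 (h0 r)
      _ = κ ^ 2 * (h r * v r ^ 2) := by ring
  calc _ ≤ (∫ r in a..b, h r) * ∫ r in a..b, h r * D r ^ 2 := h1
    _ ≤ (∫ r in a..b, h r) * (κ ^ 2 * ∫ r in a..b, h r * v r ^ 2) :=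
        mul_le_mul_of_nonneg_left h2 hA
    _ ≤ m * (κ ^ 2 * ∫ r in a..b, h r * v r ^ 2) :=
        mul_le_mul_of_nonneg_right hm (by positivity)
    _ = _ := by ring

lemma six_sq (x1 x2 x3 x4 x5 x6 : ℝ) : (x1 + x2 + x3 + x4 + x5 + x6) ^ 2
    ≤ 6 * (x1 ^ 2 + x2 ^ 2 + x3 ^ 2 + x4 ^ 2 + x5 ^ 2 + x6 ^ 2) := by
  have e : 6 * (x1 ^ 2 + x2 ^ 2 + x3 ^ 2 + x4 ^ 2 + x5 ^ 2 + x6 ^ 2)
      - (x1 + x2 + x3 + x4 + x5 + x6) ^ 2 = (x1 - x2) ^ 2 + (x1 - x3) ^ 2 + (x1 - x4) ^ 2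
      + (x1 - x5) ^ 2 + (x1 - x6) ^ 2 + (x2 - x3) ^ 2 + (x2 - x4) ^ 2 + (x2 - x5) ^ 2
      + (x2 - x6) ^ 2 + (x3 - x4) ^ 2 + (x3 - x5) ^ 2 + (x3 - x6) ^ 2 + (x4 - x5) ^ 2
      + (x4 - x6) ^ 2 + (x5 - x6) ^ 2 := by ring
  have : 0 ≤ (x1 - x2) ^ 2 + (x1 - x3) ^ 2 + (x1 - x4) ^ 2
      + (x1 - x5) ^ 2 + (x1 - x6) ^ 2 + (x2 - x3) ^ 2 + (x2 - x4) ^ 2 + (x2 - x5) ^ 2
      + (x2 - x6) ^ 2 + (x3 - x4) ^ 2 + (x3 - x5) ^ 2 + (x3 - x6) ^ 2 + (x4 - x5) ^ 2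
      + (x4 - x6) ^ 2 + (x5 - x6) ^ 2 := by positivity
  linarith

lemma six_bound {x1 x2 x3 x4 x5 x6 S1 S2 S3 S4 S5 S6 a b : ℝ} (ha : 0 ≤ a) (hb : 0 ≤ b)
    (p1 : 0 ≤ S1) (p2 : 0 ≤ S2) (p3 : 0 ≤ S3) (p4 : 0 ≤ S4) (p5 : 0 ≤ S5) (p6 : 0 ≤ S6)
    (q1 : x1 ^ 2 ≤ a * S1) (q2 : x2 ^ 2 ≤ b * S2) (q3 : x3 ^ 2 ≤ a * S3) (q4 : x4 ^ 2 ≤ b * S4)
    (q5 : x5 ^ 2 ≤ b * S5) (q6 : x6 ^ 2 ≤ a * S6) :
    (x1 + x2 + x3 + x4 + x5 + x6) ^ 2 ≤ 6 * (a + b) * (S1 + S2 + S3 + S4 + S5 + S6) := by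
  have k1 : a ≤ a + b := by linarith
  have k2 : b ≤ a + b := by linarith
  have w1 := q1.trans (mul_le_mul_of_nonneg_right k1 p1)
  have w2 := q2.trans (mul_le_mul_of_nonneg_right k2 p2)
  have w3 := q3.trans (mul_le_mul_of_nonneg_right k1 p3)
  have w4 := q4.trans (mul_le_mul_of_nonneg_right k2 p4)
  have w5 := q5.trans (mul_le_mul_of_nonneg_right k2 p5)
  have w6 := q6.trans (mul_le_mul_of_nonneg_right k1 p6)
  calc _ ≤ _ := six_sq _ _ _ _ _ _
    _ ≤ 6 * ((a + b) * S1 + (a + b) * S2 + (a + b) * S3 + (a + b) * S4 + (a + b) * S5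
        + (a + b) * S6) := by linarith
    _ = _ := by ring

/-- final real inequality near `(1,1)` -/
lemma final_ineq {p ν ν1 L1 L2 ε C1 C2 E A I1 ID TG gx S1 S2 S3 S4 S5 S6 : ℝ}
    (hp : 0 < p) (hp1 : p < 1) (hν0 : 0 < ν) (hν1 : ν1 = ν * (1 - p) / 16)
    (hL1 : 0 < L1) (hL12 : L1 ≤ L2) (hε : 0 < ε) (hC1 : 0 < C1)
    (hAε : 1 / ε ≤ A) (hsq : L2 * C2 * ε ^ 2 ≤ ν / 8)
    (hsq2 : 48 * C1 / (ν1 * (1 - p)) * ε ≤ ν / 8)
    (p1 : 0 ≤ S1) (p2 : 0 ≤ S2) (p3 : 0 ≤ S3) (p4 : 0 ≤ S4) (p5 : 0 ≤ S5) (p6 : 0 ≤ S6)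
    (hE0 : 0 ≤ E)
    (hT1 : TG ≤ (1 - p + ν1) * (S1 + S3 + S6) + (S2 + S4 + S5))
    (hI1 : I1 ^ 2 ≤ A * (S1 + S2 + S3 + S4 + S5 + S6))
    (hID : ID ^ 2 ≤ 6 * (A * ν1 ^ 2 + C1 * 16) * (S1 + S2 + S3 + S4 + S5 + S6))
    (hG : gx * A + ((1 - p) * I1 + ID) = 0) (hE : E = L1 * (TG + gx * I1))
    (hdir : (1 - p) * L2 * (S1 + S2 + S3 + S4 + S6) + L2 * S5 ≤ (1 - ν) * E)
    (hsm : S2 + S4 ≤ C2 * ε ^ 2 * E) : E ≤ 0 := by
  have hq : 0 < 1 - p := by linarith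
  have hν1p : 0 < ν1 := by rw [hν1]; positivity
  have hA : 0 < A := lt_of_lt_of_le (by positivity) hAε
  have hL2 : 0 < L2 := by linarith
  obtain ⟨S, hS⟩ : ∃ S, S = S1 + S2 + S3 + S4 + S5 + S6 := ⟨_, rfl⟩
  rw [← hS] at hI1 hID
  have hS0 : 0 ≤ S := by rw [hS]; positivity
  -- the second term
  have h1 : A * (gx * I1) ≤ (7 / 2 * ν1) * A * S + 48 * C1 / ν1 * S := by
    have e : A * (gx * I1) = - (1 - p) * I1 ^ 2 - ID * I1 := by
      have : gx * A = - ((1 - p) * I1 + ID) := by linarith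
      calc A * (gx * I1) = gx * A * I1 := by ring
        _ = _ := by rw [this]; ring
    have y : - ID * I1 ≤ ν1 / 2 * I1 ^ 2 + ID ^ 2 / (2 * ν1) := by
      have h2 : 0 ≤ (ν1 * I1 + ID) ^ 2 / (2 * ν1) := by positivity
      have h3 : (ν1 * I1 + ID) ^ 2 / (2 * ν1) = ν1 / 2 * I1 ^ 2 + ID ^ 2 / (2 * ν1) + ID * I1 := by
        field_simp; ring
      linarith
    have y2 : ID ^ 2 / (2 * ν1) ≤ 6 * (A * ν1 ^ 2 + C1 * 16) * S / (2 * ν1) :=
      div_le_div_of_nonneg_right hID (by positivity)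
    have y3 : 6 * (A * ν1 ^ 2 + C1 * 16) * S / (2 * ν1) = 3 * ν1 * A * S + 48 * C1 / ν1 * S := by
      field_simp; ring
    have y4 : ν1 / 2 * I1 ^ 2 ≤ ν1 / 2 * (A * S) := mul_le_mul_of_nonneg_left hI1 (by positivity)
    have y5 : 0 ≤ (1 - p) * I1 ^ 2 := by positivity
    rw [e]; linarith
  have h2 : gx * I1 ≤ (7 / 2 * ν1 + 48 * C1 / ν1 * ε) * S := by
    have h3 : 48 * C1 / ν1 * S ≤ A * (48 * C1 / ν1 * ε * S) := by
      have h4 : 1 ≤ A * ε := by rwa [div_le_iff₀ hε] at hAε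
      calc 48 * C1 / ν1 * S = 1 * (48 * C1 / ν1 * S) := by ring
        _ ≤ (A * ε) * (48 * C1 / ν1 * S) := mul_le_mul_of_nonneg_right h4 (by positivity)
        _ = _ := by ring
    have h5 : A * (gx * I1) ≤ A * ((7 / 2 * ν1 + 48 * C1 / ν1 * ε) * S) := by
      calc _ ≤ _ := h1
        _ ≤ (7 / 2 * ν1) * A * S + A * (48 * C1 / ν1 * ε * S) := by linarith
        _ = _ := by ring
    exact le_of_mul_le_mul_left h5 hA
  obtain ⟨B, hB⟩ : ∃ B, B = 9 / 2 * ν1 + 48 * C1 / ν1 * ε := ⟨_, rfl⟩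
  have hB0 : 0 ≤ B := by rw [hB]; positivity
  have h3 : TG + gx * I1 ≤ (1 - p) * (S1 + S2 + S3 + S4 + S6) + S5 + (S2 + S4) + B * S := by
    have h4 : (1 - p + ν1) * (S1 + S3 + S6) + (S2 + S4 + S5)
        ≤ (1 - p) * (S1 + S2 + S3 + S4 + S6) + S5 + (S2 + S4) + ν1 * S := by
      have e : (1 - p) * (S1 + S2 + S3 + S4 + S6) + S5 + (S2 + S4) + ν1 * S
          = ((1 - p + ν1) * (S1 + S3 + S6) + (S2 + S4 + S5))
            + ((1 - p) * (S2 + S4) + ν1 * (S2 + S4 + S5)) := by rw [hS]; ring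
      have : 0 ≤ (1 - p) * (S2 + S4) + ν1 * (S2 + S4 + S5) := by positivity
      linarith
    have e2 : B * S = 9 / 2 * ν1 * S + 48 * C1 / ν1 * ε * S := by rw [hB]; ring
    have e3 : (7 / 2 * ν1 + 48 * C1 / ν1 * ε) * S + ν1 * S = B * S := by rw [hB]; ring
    linarith
  have h4 : 0 ≤ (1 - p) * (S1 + S2 + S3 + S4 + S6) + S5 + (S2 + S4) + B * S := by positivity
  have h5 : E ≤ L2 * ((1 - p) * (S1 + S2 + S3 + S4 + S6) + S5 + (S2 + S4) + B * S) := by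
    calc E = L1 * (TG + gx * I1) := hE
      _ ≤ L1 * ((1 - p) * (S1 + S2 + S3 + S4 + S6) + S5 + (S2 + S4) + B * S) :=
        mul_le_mul_of_nonneg_left h3 hL1.le
      _ ≤ _ := mul_le_mul_of_nonneg_right hL12 h4
  have h6 : (1 - p) * L2 * S ≤ E := by
    have : (1 - p) * L2 * S5 ≤ L2 * S5 := by
      have := mul_nonneg hL2.le p5
      nlinarith
    have h7 : (1 - ν) * E ≤ E := by nlinarith
    calc (1 - p) * L2 * S = (1 - p) * L2 * (S1 + S2 + S3 + S4 + S6) + (1 - p) * L2 * S5 := by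
          rw [hS]; ring
      _ ≤ E := by linarith
  have h7 : B / (1 - p) ≤ 9 * ν / 32 + ν / 8 := by
    have e : B / (1 - p) = 9 * ν / 32 + 48 * C1 / (ν1 * (1 - p)) * ε := by
      have e1 : ν1 / (1 - p) = ν / 16 := by rw [hν1]; field_simp
      have e2 : B / (1 - p) = 9 / 2 * (ν1 / (1 - p)) + 48 * C1 / (ν1 * (1 - p)) * ε := by
        rw [hB]; field_simp
      rw [e2, e1]; ring
    rw [e]; linarith
  have h8 : L2 * (B * S) ≤ (9 * ν / 32 + ν / 8) * E := by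
    calc L2 * (B * S) = B / (1 - p) * ((1 - p) * L2 * S) := by field_simp
      _ ≤ B / (1 - p) * E := mul_le_mul_of_nonneg_left h6 (by positivity)
      _ ≤ _ := mul_le_mul_of_nonneg_right h7 hE0
  have h9 : L2 * (S2 + S4) ≤ ν / 8 * E := by
    calc L2 * (S2 + S4) ≤ L2 * (C2 * ε ^ 2 * E) := mul_le_mul_of_nonneg_left hsm hL2.le
      _ = L2 * C2 * ε ^ 2 * E := by ring
      _ ≤ _ := mul_le_mul_of_nonneg_right hsq hE0
  have h10 : E ≤ (1 - ν) * E + ν / 8 * E + (9 * ν / 32 + ν / 8) * E := by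
    calc E ≤ _ := h5
      _ = ((1 - p) * L2 * (S1 + S2 + S3 + S4 + S6) + L2 * S5) + L2 * (S2 + S4)
          + L2 * (B * S) := by ring
      _ ≤ _ := by linarith
  by_contra hcon
  replace hcon := not_le.1 hcon
  nlinarith [mul_pos hν0 hcon]

/-- near `(1,1)` -/
lemma loc_one (hPas : PassiveStatement) (hDir : DirStatement) (P : Par) (C : ℝ) :
    ∃ η > 0, ∀ᶠ ε in 𝓝[>] (0:ℝ),
    ∀ h, P.IsRing ε h → ∀ u F, Sol P.p P.L1 (P.ell ε) h u F → (∀ s, 0 ≤ u s) →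
      (∀ s ∈ Icc 0 (P.s1 ε) ∪ Icc (P.s14 ε) (P.ell ε), |u s - u 0| ≤ C * ε) →
      (∀ s ∈ Icc (P.s4 ε) (P.s5 ε), |u s - u (P.s4 ε)| ≤ C * ε) →
      |u 0 - 1| < η → |u (P.s4 ε) - 1| < η → ∀ s, u s = 1 := by
  obtain ⟨ν, hν, hdir⟩ := hDir P
  obtain ⟨C1, hC1, hev1⟩ := mass_total hPas P
  obtain ⟨C2, hC2, hev2⟩ := small_parts P
  have hp := P.hp0
  have hp1 := P.hp1
  have hL1 := L1_pos P
  have hL2 := L2_pos P
  have hν0 := hν.1
  have hq : 0 < 1 - P.p := by linarith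
  obtain ⟨ν1, hν1d⟩ : ∃ ν1, ν1 = ν * (1 - P.p) / 16 := ⟨_, rfl⟩
  have hν1 : 0 < ν1 := by rw [hν1d]; positivity
  obtain ⟨η0, hη0, hη1, hg⟩ := gg_near_one hp hν1
  refine ⟨η0 / 2, by positivity, ?_⟩
  filter_upwards [hdir, hev1, hev2, ev_pos, ev_small C (show (0:ℝ) < η0 / 2 by positivity),
    ev_small_sq (P.L2 * C2) (show (0:ℝ) < ν / 8 by positivity),
    ev_small (48 * C1 / (ν1 * (1 - P.p))) (show (0:ℝ) < ν / 8 by positivity)]
    with ε hdir hmass hsm hε hCε hsq hsq2 h H u F S hu0 hH hL hx hy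
  have o := order P hε
  have hc := ring_cont H
  have hpos := H.pos
  have h0 : ∀ r, 0 ≤ h r := fun r => (hpos r).le
  have hℓ : 0 < P.ell ε := by linarith
  have hcu := sol_cont S
  have hcg := (continuous_gg hp hp1).comp hcu
  obtain ⟨hA1, hA2, hm1, hm2⟩ := hmass h H
  obtain ⟨x, hxd⟩ : ∃ x, x = u 0 := ⟨_, rfl⟩
  rw [← hxd] at hH hx
  have hx1 := abs_lt.1 hx
  have hx2 : 1 / 2 ≤ x := by linarith
  obtain ⟨v, hv⟩ : ∃ v : ℝ → ℝ, v = fun s => u s - x := ⟨_, rfl⟩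
  obtain ⟨D, hD⟩ : ∃ D : ℝ → ℝ, D = fun s => gg P.p (u s) - gg P.p x - (1 - P.p) * v s := ⟨_, rfl⟩
  have hvc : Continuous v := by rw [hv]; exact hcu.sub continuous_const
  have hDc : Continuous D := by
    rw [hD]; exact (hcg.sub continuous_const).sub (continuous_const.mul hvc)
  have hvl : Lip v 0 (P.ell ε) := by
    obtain ⟨K, hK⟩ := sol_lip S hc hpos 0 (P.ell ε)
    refine ⟨K, LipschitzOnWith.of_dist_le_mul fun a ha b hb => ?_⟩
    have h1 := hK.dist_le_mul a ha b hb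
    rw [hv, Real.dist_eq]; rw [Real.dist_eq] at h1
    rwa [show u a - x - (u b - x) = u a - u b by ring]
  have hv0 : v 0 = 0 := by rw [hv, hxd]; simp
  have hvℓ : v (P.ell ε) = 0 := by
    have := S.per 0
    rw [zero_add] at this
    simp only [hv, hxd, this, sub_self]
  -- near region and rest
  have hnear : ∀ s, |u s - 1| ≤ η0 → |D s| ≤ ν1 * |v s| := by
    intro s hs
    have := hg (u s) x hs (by linarith)
    simpa [hD, hv] using this
  have hDall : ∀ s, |D s| ≤ 4 * |v s| := by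
    intro s
    have := gg_lip hp hp1 (hu0 s) hx2
    simpa [hD, hv] using this
  have hnH : ∀ s ∈ Icc 0 (P.s1 ε) ∪ Icc (P.s14 ε) (P.ell ε), |D s| ≤ ν1 * |v s| := by
    intro s hs
    refine hnear s ?_
    have h1 := hH s hs
    have h2 : |u s - 1| ≤ |u s - x| + |x - 1| := by
      have := abs_add_le (u s - x) (x - 1)
      rwa [show u s - x + (x - 1) = u s - 1 by ring] at this
    linarith
  have hnL : ∀ s ∈ Icc (P.s4 ε) (P.s5 ε), |D s| ≤ ν1 * |v s| := by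
    intro s hs
    refine hnear s ?_
    have h1 := hL s hs
    have h2 : |u s - 1| ≤ |u s - u (P.s4 ε)| + |u (P.s4 ε) - 1| := by
      have := abs_add_le (u s - u (P.s4 ε)) (u (P.s4 ε) - 1)
      rwa [show u s - u (P.s4 ε) + (u (P.s4 ε) - 1) = u s - 1 by ring] at this
    linarith
  -- energy identity
  have hdv : ∀ s, deriv v s = deriv u s := fun s => by rw [hv, deriv_sub_const]
  have hEn : En h v 0 (P.ell ε) = P.L1 * ∫ r in (0:ℝ)..(P.ell ε), h r * (gg P.p (u r) * v r) := by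
    rw [← sol_test_per hp hp1 S hc hpos hℓ.le hvl (by rw [hv0, hvℓ]), En]
    congr 1
    funext r
    rw [hdv]; ring
  have hmean := sol_mean hp hp1 S hc hpos hℓ.le hL1
  obtain ⟨E, hE⟩ : ∃ E, E = En h v 0 (P.ell ε) := ⟨_, rfl⟩
  obtain ⟨A, hA⟩ : ∃ A, A = ∫ r in (0:ℝ)..(P.ell ε), h r := ⟨_, rfl⟩
  obtain ⟨I1, hI1⟩ : ∃ I1, I1 = ∫ r in (0:ℝ)..(P.ell ε), h r * v r := ⟨_, rfl⟩
  obtain ⟨ID, hID⟩ : ∃ ID, ID = ∫ r in (0:ℝ)..(P.ell ε), h r * D r := ⟨_, rfl⟩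
  obtain ⟨TG, hTG⟩ : ∃ TG, TG = ∫ r in (0:ℝ)..(P.ell ε), h r * ((gg P.p (u r) - gg P.p x) * v r) :=
    ⟨_, rfl⟩
  obtain ⟨S1, hS1⟩ : ∃ S1, S1 = ∫ r in (0:ℝ)..(P.s1 ε), h r * v r ^ 2 := ⟨_, rfl⟩
  obtain ⟨S2, hS2⟩ : ∃ S1, S1 = ∫ r in (P.s1 ε)..(P.s4 ε), h r * v r ^ 2 := ⟨_, rfl⟩
  obtain ⟨S3, hS3⟩ : ∃ S1, S1 = ∫ r in (P.s4 ε)..(P.s5 ε), h r * v r ^ 2 := ⟨_, rfl⟩
  obtain ⟨S4, hS4⟩ : ∃ S1, S1 = ∫ r in (P.s5 ε)..(P.s6 ε), h r * v r ^ 2 := ⟨_, rfl⟩
  obtain ⟨S5, hS5⟩ : ∃ S1, S1 = ∫ r in (P.s6 ε)..(P.s14 ε), h r * v r ^ 2 := ⟨_, rfl⟩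
  obtain ⟨S6, hS6⟩ : ∃ S1, S1 = ∫ r in (P.s14 ε)..(P.ell ε), h r * v r ^ 2 := ⟨_, rfl⟩
  have ii : ∀ {f : ℝ → ℝ}, Continuous f → ∀ a b, IntervalIntegrable (fun r => h r * f r) volume a b :=
    fun hf a b => (hc.mul hf).intervalIntegrable a b
  have hnn : ∀ a b, a ≤ b → 0 ≤ ∫ r in a..b, h r * v r ^ 2 := fun a b hab =>
    intervalIntegral.integral_nonneg hab fun r _ => mul_nonneg (h0 r) (sq_nonneg _)
  have p1 : 0 ≤ S1 := by rw [hS1]; exact hnn _ _ (by linarith)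
  have p2 : 0 ≤ S2 := by rw [hS2]; exact hnn _ _ (by linarith)
  have p3 : 0 ≤ S3 := by rw [hS3]; exact hnn _ _ (by linarith)
  have p4 : 0 ≤ S4 := by rw [hS4]; exact hnn _ _ (by linarith)
  have p5 : 0 ≤ S5 := by rw [hS5]; exact hnn _ _ (by linarith)
  have p6 : 0 ≤ S6 := by rw [hS6]; exact hnn _ _ (by linarith)
  have hSt : ∫ r in (0:ℝ)..(P.ell ε), h r * v r ^ 2 = S1 + S2 + S3 + S4 + S5 + S6 := by
    rw [split6 (P := P) hε (f := fun r => h r * v r ^ 2) (ii (hvc.pow 2) _ _), hS1, hS2, hS3,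
      hS4, hS5, hS6]
  -- first term
  have pieceG : ∀ a b κ, a ≤ b → (∀ r ∈ Icc a b, (gg P.p (u r) - gg P.p x) * v r ≤ κ * v r ^ 2) →
      ∫ r in a..b, h r * ((gg P.p (u r) - gg P.p x) * v r) ≤ κ * ∫ r in a..b, h r * v r ^ 2 := by
    intro a b κ hab hκ
    rw [← intervalIntegral.integral_const_mul]
    refine intervalIntegral.integral_mono_on hab
      (ii ((hcg.sub continuous_const).mul hvc) _ _) ((ii (hvc.pow 2) _ _).const_mul _)
      fun r hr => ?_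
    calc h r * ((gg P.p (u r) - gg P.p x) * v r) ≤ h r * (κ * v r ^ 2) :=
          mul_le_mul_of_nonneg_left (hκ r hr) (h0 r)
      _ = κ * (h r * v r ^ 2) := by ring
  have gall : ∀ r, (gg P.p (u r) - gg P.p x) * v r ≤ 1 * v r ^ 2 := by
    intro r
    have := gg_mul_le hp (u r) x
    rw [one_mul]
    simpa [hv] using this
  have gnear : ∀ r, |D r| ≤ ν1 * |v r| →
      (gg P.p (u r) - gg P.p x) * v r ≤ (1 - P.p + ν1) * v r ^ 2 := by
    intro r hr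
    have e : (gg P.p (u r) - gg P.p x) * v r = (1 - P.p) * v r ^ 2 + D r * v r := by
      rw [hD]; ring
    have h1 : D r * v r ≤ ν1 * v r ^ 2 := by
      calc D r * v r ≤ |D r * v r| := le_abs_self _
        _ = |D r| * |v r| := abs_mul _ _
        _ ≤ ν1 * |v r| * |v r| := mul_le_mul_of_nonneg_right hr (abs_nonneg _)
        _ = ν1 * v r ^ 2 := by rw [mul_assoc, ← sq, sq_abs]
    rw [e]; linarith
  have hT1 : TG ≤ (1 - P.p + ν1) * (S1 + S3 + S6) + (S2 + S4 + S5) := by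
    rw [hTG, split6 (P := P) hε (f := fun r => h r * ((gg P.p (u r) - gg P.p x) * v r))
      (ii ((hcg.sub continuous_const).mul hvc) _ _), hS1, hS2, hS3, hS4, hS5, hS6]
    have q1 := pieceG 0 (P.s1 ε) _ (by linarith) (fun r hr => gnear r (hnH r (Or.inl hr)))
    have q2 := pieceG (P.s1 ε) (P.s4 ε) _ (by linarith) (fun r _ => gall r)
    have q3 := pieceG (P.s4 ε) (P.s5 ε) _ (by linarith) (fun r hr => gnear r (hnL r hr))
    have q4 := pieceG (P.s5 ε) (P.s6 ε) _ (by linarith) (fun r _ => gall r)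
    have q5 := pieceG (P.s6 ε) (P.s14 ε) _ (by linarith) (fun r _ => gall r)
    have q6 := pieceG (P.s14 ε) (P.ell ε) _ (by linarith) (fun r hr => gnear r (hnH r (Or.inr hr)))
    linarith
  -- second term
  have hI1sq : I1 ^ 2 ≤ A * (S1 + S2 + S3 + S4 + S5 + S6) := by
    rw [← hSt, hI1, hA]
    exact wcs hℓ.le hc h0 hvc.continuousOn
  have hApos : 0 < A := by rw [hA]; exact lt_of_lt_of_le (by positivity) hA1
  have msub : ∀ a b, 0 ≤ a → a ≤ b → b ≤ P.ell ε → ∫ r in a..b, h r ≤ A := by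
    intro a b ha hab hb
    rw [hA]
    exact intervalIntegral.integral_mono_interval ha hab hb
      (Eventually.of_forall fun r => h0 r) (hc.intervalIntegrable _ _)
  have hm56 : ∫ r in (P.s5 ε)..(P.s6 ε), h r ≤ C1 :=
    (intervalIntegral.integral_mono_interval le_rfl (by linarith) (by linarith)
      (Eventually.of_forall fun r => h0 r) (hc.intervalIntegrable _ _)).trans hm2
  have hm614 : ∫ r in (P.s6 ε)..(P.s14 ε), h r ≤ C1 :=
    (intervalIntegral.integral_mono_interval (by linarith) (by linarith) le_rfl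
      (Eventually.of_forall fun r => h0 r) (hc.intervalIntegrable _ _)).trans hm2
  have hIDsq : ID ^ 2 ≤ 6 * (A * ν1 ^ 2 + C1 * 16) * (S1 + S2 + S3 + S4 + S5 + S6) := by
    have q1 := piece_sq (by linarith : (0:ℝ) ≤ P.s1 ε) hc h0 hDc hvc hν1.le
      (fun r hr => hnH r (Or.inl hr)) (msub _ _ le_rfl (by linarith) (by linarith))
    have q2 := piece_sq (by linarith : P.s1 ε ≤ P.s4 ε) hc h0 hDc hvc (by norm_num : (0:ℝ) ≤ 4)
      (fun r _ => hDall r) hm1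
    have q3 := piece_sq (by linarith : P.s4 ε ≤ P.s5 ε) hc h0 hDc hvc hν1.le
      hnL (msub _ _ (by linarith) (by linarith) (by linarith))
    have q4 := piece_sq (by linarith : P.s5 ε ≤ P.s6 ε) hc h0 hDc hvc (by norm_num : (0:ℝ) ≤ 4)
      (fun r _ => hDall r) hm56
    have q5 := piece_sq (by linarith : P.s6 ε ≤ P.s14 ε) hc h0 hDc hvc (by norm_num : (0:ℝ) ≤ 4)
      (fun r _ => hDall r) hm614
    have q6 := piece_sq (by linarith : P.s14 ε ≤ P.ell ε) hc h0 hDc hvc hν1.le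
      (fun r hr => hnH r (Or.inr hr)) (msub _ _ (by linarith) (by linarith) le_rfl)
    rw [← hS1] at q1
    rw [← hS2] at q2
    rw [← hS3] at q3
    rw [← hS4] at q4
    rw [← hS5] at q5
    rw [← hS6] at q6
    rw [hID, split6 (P := P) hε (f := fun r => h r * D r) (ii hDc _ _)]
    have := six_bound (by positivity) (by positivity) p1 p2 p3 p4 p5 p6 q1 q2 q3 q4 q5 q6
    norm_num at this ⊢
    linarith
  -- the identity for the mean
  have hGint : gg P.p x * A + ((1 - P.p) * I1 + ID) = 0 := by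
    have e1 : (fun r => h r * gg P.p (u r))
        = fun r => gg P.p x * h r + ((1 - P.p) * (h r * v r) + h r * D r) := by
      funext r; rw [hD]; ring
    rw [e1, intervalIntegral.integral_add ((hc.intervalIntegrable _ _).const_mul _)
      (((ii hvc _ _).const_mul _).add (ii hDc _ _)),
      intervalIntegral.integral_add ((ii hvc _ _).const_mul _) (ii hDc _ _),
      intervalIntegral.integral_const_mul, intervalIntegral.integral_const_mul] at hmean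
    rw [hA, hI1, hID]
    exact hmean
  have hsum : ∫ r in (0:ℝ)..(P.ell ε), h r * (gg P.p (u r) * v r) = TG + gg P.p x * I1 := by
    have e1 : (fun r => h r * (gg P.p (u r) * v r))
        = fun r => h r * ((gg P.p (u r) - gg P.p x) * v r) + gg P.p x * (h r * v r) := by
      funext r; ring
    have i1 : IntervalIntegrable (fun r => h r * ((gg P.p (u r) - gg P.p x) * v r)) volume 0
        (P.ell ε) := ii (f := fun r => (gg P.p (u r) - gg P.p x) * v r)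
          ((hcg.sub continuous_const).mul hvc) _ _
    rw [e1, intervalIntegral.integral_add i1 ((ii hvc _ _).const_mul _),
      intervalIntegral.integral_const_mul, hTG, hI1]
  have hEeq : E = P.L1 * (TG + gg P.p x * I1) := by rw [hE, hEn, hsum]
  have hE0 : 0 ≤ E := by rw [hE]; exact En_nonneg hℓ.le h0
  have hdir1 := hdir h H v hvl hv0 hvℓ
  have hSm06 : Sm h v 0 (P.s6 ε) = S1 + S2 + S3 + S4 := by
    rw [Sm, split (f := fun r => h r * v r ^ 2) (b := P.s1 ε) (ii (hvc.pow 2) _ _) (by linarith)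
      (by linarith), split (a := P.s1 ε) (f := fun r => h r * v r ^ 2) (b := P.s4 ε)
      (ii (hvc.pow 2) _ _) (by linarith) (by linarith),
      split (a := P.s4 ε) (f := fun r => h r * v r ^ 2) (b := P.s5 ε)
      (ii (hvc.pow 2) _ _) (by linarith) (by linarith), hS1, hS2, hS3, hS4]
    ring
  have hdir2 : (1 - P.p) * P.L2 * (S1 + S2 + S3 + S4 + S6) + P.L2 * S5 ≤ (1 - ν) * E := by
    rw [hSm06] at hdir1
    simp only [Sm] at hdir1
    rw [← hS5, ← hS6, ← hE] at hdir1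
    exact hdir1
  have hsm1 : S2 + S4 ≤ C2 * ε ^ 2 * E := by
    have := hsm h H v hvl hv0
    simp only [Sm] at this
    rwa [← hS2, ← hS4, ← hE] at this
  have hfin : E ≤ 0 := final_ineq hp hp1 hν0 hν1d hL1 P.hL12.le hε hC1 (by rw [hA]; exact hA1)
    hsq.le hsq2.le p1 p2 p3 p4 p5 p6 hE0 hT1 hI1sq hIDsq hGint hEeq hdir2 hsm1
  have hconst := const_of_En hℓ.le hc hpos hvl (by rw [← hE]; exact hfin)
  have hux : ∀ s ∈ Icc 0 (P.ell ε), u s = x := by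
    intro s hs
    have h1 := hconst s hs
    rw [hv0, hv] at h1
    simp only at h1
    linarith
  have hgx : gg P.p x = 0 := by
    have h1 : ∫ r in (0:ℝ)..(P.ell ε), h r * gg P.p (u r) = gg P.p x * A := by
      rw [hA, ← intervalIntegral.integral_const_mul]
      refine intervalIntegral.integral_congr fun r hr => ?_
      rw [uIcc_of_le hℓ.le] at hr
      simp only [hux r hr]; ring
    rw [h1] at hmean
    rcases mul_eq_zero.1 hmean with h2 | h2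
    · exact h2
    · exact absurd h2 hApos.ne'
  have hx1' : x = 1 := by
    rcases lt_trichotomy x 1 with h1 | h1 | h1
    · exact absurd hgx (gg_neg_of_mem hp hp1 (by linarith) h1).ne
    · exact h1
    · exact absurd hgx (gg_pos_of_one_lt hp hp1 h1).ne'
  exact forall_of_per (Q := fun y => y = 1) hℓ S.per fun s hs => by rw [hux s hs, hx1']

end H97
end Pool.Agent.Lib.MP_e46711_an
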