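import Pool.Agent.Lib.MP_e46711_an.H82.Basic

/-!
Common facts for modules C6 and C8: order of the break points, Lipschitz functions, Cauchy-Schwarz,
test identities.
-/

open Set Filter Topology MeasureTheory
open scoped ContDiff

namespace Pool.Agent.Lib.MP_e46711_an
namespace H97

lemma order (P : Par) {ε : ℝ} (hε : 0 < ε) :
    0 < P.s1 ε ∧ P.s1 ε < P.s2 ε ∧ P.s2 ε < P.s3 ε ∧ P.s3 ε < P.s4 ε ∧ P.s4 ε < P.s5 ε ∧
    P.s5 ε < P.s6 ε ∧ P.s6 ε < P.s7 ε ∧ P.s7 ε < P.s8 ε ∧ P.s8 ε < P.s9 ε ∧ P.s9 ε < P.s10 ε ∧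
    P.s10 ε < P.s11 ε ∧ P.s11 ε < P.s12 ε ∧ P.s12 ε < P.s13 ε ∧ P.s13 ε < P.s14 ε ∧
    P.s14 ε < P.ell ε := by
  have h3 : 0 < ε ^ 3 := by positivity
  have hτ := P.hτ
  simp only [Par.s1, Par.s2, Par.s3, Par.s4, Par.s5, Par.s6, Par.s7, Par.s8, Par.s9, Par.s10,
    Par.s11, Par.s12, Par.s13, Par.s14, Par.ell]
  refine ⟨?_, ?_, ?_, ?_, ?_, ?_, ?_, ?_, ?_, ?_, ?_, ?_, ?_, ?_, ?_⟩ <;> linarith

lemma intble_of_bdd {f : ℝ → ℝ} {s t C : ℝ} (hst : s ≤ t) (hm : Measurable f)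
    (hb : ∀ r ∈ Ioo s t, |f r| ≤ C) : IntervalIntegrable f volume s t := by
  rw [intervalIntegrable_iff_integrableOn_Ioo_of_le hst]
  refine Measure.integrableOn_of_bounded (M := C) (by simp) hm.aestronglyMeasurable ?_
  exact (ae_restrict_iff' measurableSet_Ioo).2 (Eventually.of_forall fun r hr => by
    simpa using hb r hr)

lemma lip_mono {u : ℝ → ℝ} {s t s' t' : ℝ} (h : Lip u s t) (h1 : s ≤ s') (h2 : t' ≤ t) :
    Lip u s' t' := by
  obtain ⟨K, hK⟩ := h
  exact ⟨K, hK.mono (Icc_subset_Icc h1 h2)⟩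

lemma lip_cont {u : ℝ → ℝ} {s t : ℝ} (h : Lip u s t) : ContinuousOn u (Icc s t) := by
  obtain ⟨K, hK⟩ := h
  exact hK.continuousOn

lemma lip_deriv_bdd {u : ℝ → ℝ} {s t : ℝ} (h : Lip u s t) :
    ∃ K : ℝ, 0 ≤ K ∧ ∀ r ∈ Ioo s t, |deriv u r| ≤ K := by
  obtain ⟨K, hK⟩ := h
  refine ⟨K, K.2, fun r hr => ?_⟩
  have := norm_deriv_le_of_lipschitzOn (Icc_mem_nhds hr.1 hr.2) hK
  simpa using this

lemma lip_intble_deriv {u : ℝ → ℝ} {s t : ℝ} (hst : s ≤ t) (h : Lip u s t) :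
    IntervalIntegrable (deriv u) volume s t := by
  obtain ⟨K, _, hK⟩ := lip_deriv_bdd h
  exact intble_of_bdd hst (measurable_deriv u) hK

lemma lip_intble_deriv_sq {u : ℝ → ℝ} {s t : ℝ} (hst : s ≤ t) (h : Lip u s t) :
    IntervalIntegrable (fun r => (deriv u r) ^ 2) volume s t := by
  obtain ⟨K, hK0, hK⟩ := lip_deriv_bdd h
  refine intble_of_bdd (C := K ^ 2) hst ((measurable_deriv u).pow_const 2) fun r hr => ?_
  rw [abs_pow]
  exact pow_le_pow_left₀ (abs_nonneg _) (hK r hr) 2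

lemma lip_intble {h u : ℝ → ℝ} {s t : ℝ} (hst : s ≤ t) (hh : Continuous h) (hu : Lip u s t) :
    IntervalIntegrable (fun r => h r * (deriv u r) ^ 2) volume s t :=
  (lip_intble_deriv_sq hst hu).continuousOn_mul hh.continuousOn

lemma intble_of_contOn {f : ℝ → ℝ} {s t : ℝ} (hst : s ≤ t) (hf : ContinuousOn f (Icc s t)) :
    IntervalIntegrable f volume s t :=
  ContinuousOn.intervalIntegrable (by rwa [uIcc_of_le hst])

/-- Cauchy-Schwarz on an interval where `h ≥ k` -/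
lemma cs_bound {h v : ℝ → ℝ} {s t k : ℝ} (hst : s ≤ t) (hk : 0 < k) (hc : Continuous h)
    (hh : ∀ r ∈ Icc s t, k ≤ h r) (hv : Lip v s t) :
    (v t - v s) ^ 2 ≤ (t - s) / k * En h v s t := by
  rcases hst.eq_or_lt with h0 | h0
  · subst h0; simp [En]
  have hI : ∫ r in s..t, deriv v r = v t - v s := by
    obtain ⟨K, hK⟩ := hv
    have : AbsolutelyContinuousOnInterval v s t :=
      LipschitzOnWith.absolutelyContinuousOnInterval (K := K) (by rwa [uIcc_of_le hst])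
    exact this.integral_deriv_eq_sub
  have hi1 := lip_intble_deriv hst hv
  have hi2 := lip_intble_deriv_sq hst hv
  have hi3 := lip_intble hst hc hv
  have hpos : 0 < t - s := by linarith
  set I := v t - v s with hIdef
  have h1 : 0 ≤ ∫ r in s..t, (deriv v r - I / (t - s)) ^ 2 :=
    intervalIntegral.integral_nonneg hst fun r _ => sq_nonneg _
  have h2 : ∫ r in s..t, (deriv v r - I / (t - s)) ^ 2
      = (∫ r in s..t, (deriv v r) ^ 2) - I ^ 2 / (t - s) := by
    have e : (fun r => (deriv v r - I / (t - s)) ^ 2)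
        = fun r => (deriv v r) ^ 2 - 2 * (I / (t - s)) * deriv v r + (I / (t - s)) ^ 2 := by
      funext r; ring
    rw [e, intervalIntegral.integral_add (hi2.sub (hi1.const_mul _)) (by simp),
      intervalIntegral.integral_sub hi2 (hi1.const_mul _),
      intervalIntegral.integral_const_mul, hI, intervalIntegral.integral_const, smul_eq_mul]
    field_simp
    ring
  have h3 : I ^ 2 ≤ (t - s) * ∫ r in s..t, (deriv v r) ^ 2 := by
    rw [h2] at h1
    have : I ^ 2 / (t - s) ≤ ∫ r in s..t, (deriv v r) ^ 2 := by linarith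
    rw [div_le_iff₀ hpos] at this
    linarith
  have h4 : k * ∫ r in s..t, (deriv v r) ^ 2 ≤ En h v s t := by
    rw [En, ← intervalIntegral.integral_const_mul]
    refine intervalIntegral.integral_mono_on hst (hi2.const_mul _) hi3 fun r hr => ?_
    exact mul_le_mul_of_nonneg_right (hh r hr) (sq_nonneg _)
  calc I ^ 2 ≤ (t - s) * ∫ r in s..t, (deriv v r) ^ 2 := h3
    _ = (t - s) / k * (k * ∫ r in s..t, (deriv v r) ^ 2) := by field_simp
    _ ≤ (t - s) / k * En h v s t := mul_le_mul_of_nonneg_left h4 (by positivity)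

lemma En_mono {h v : ℝ → ℝ} {s t a b : ℝ} (h1 : s ≤ a) (h2 : a ≤ b) (h3 : b ≤ t)
    (hc : Continuous h) (h0 : ∀ r, 0 ≤ h r) (hv : Lip v s t) : En h v a b ≤ En h v s t := by
  refine intervalIntegral.integral_mono_interval h1 h2 h3 ?_ (lip_intble (by linarith) hc hv)
  exact Eventually.of_forall fun r => mul_nonneg (h0 r) (sq_nonneg _)

lemma En_nonneg {h v : ℝ → ℝ} {s t : ℝ} (hst : s ≤ t) (h0 : ∀ r, 0 ≤ h r) : 0 ≤ En h v s t :=
  intervalIntegral.integral_nonneg hst fun r _ => mul_nonneg (h0 r) (sq_nonneg _)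

lemma Sm_nonneg {h v : ℝ → ℝ} {s t : ℝ} (hst : s ≤ t) (h0 : ∀ r, 0 ≤ h r) : 0 ≤ Sm h v s t :=
  intervalIntegral.integral_nonneg hst fun r _ => mul_nonneg (h0 r) (sq_nonneg _)

/-- `v(r)^2 ≤ ...` from a zero at the left end -/
lemma sq_le_of_zero {h v : ℝ → ℝ} {s t k r : ℝ} (hr : r ∈ Icc s t) (hk : 0 < k)
    (hc : Continuous h) (h0 : ∀ r, 0 ≤ h r) (hh : ∀ r ∈ Icc s t, k ≤ h r) (hv : Lip v s t) :
    (v r - v s) ^ 2 ≤ (t - s) / k * En h v s t := by
  have h1 := cs_bound hr.1 hk hc (fun x hx => hh x ⟨hx.1, hx.2.trans hr.2⟩)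
    (lip_mono hv le_rfl hr.2)
  have h2 := En_mono le_rfl hr.1 hr.2 hc h0 hv
  have h3 : 0 ≤ En h v s r := En_nonneg hr.1 h0
  refine h1.trans ?_
  have h4 : (r - s) / k ≤ (t - s) / k := by
    apply div_le_div_of_nonneg_right _ hk.le
    linarith [hr.2]
  have h5 : 0 ≤ (t - s) / k := by
    apply div_nonneg _ hk.le
    linarith [hr.1, hr.2]
  calc (r - s) / k * En h v s r ≤ (t - s) / k * En h v s r := mul_le_mul_of_nonneg_right h4 h3
    _ ≤ _ := mul_le_mul_of_nonneg_left h2 h5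

/-- a Lipschitz function without energy is constant -/
lemma const_of_En {h v : ℝ → ℝ} {s t : ℝ} (hst : s ≤ t) (hc : Continuous h) (h0 : ∀ r, 0 < h r)
    (hv : Lip v s t) (hE : En h v s t ≤ 0) : ∀ r ∈ Icc s t, v r = v s := by
  intro r hr
  obtain ⟨x, hx, hmin⟩ := isCompact_Icc.exists_isMinOn (nonempty_Icc.2 hst) hc.continuousOn
  have h1 := sq_le_of_zero hr (h0 x) hc (fun r => (h0 r).le) (fun y hy => hmin hy) hv
  have h2 : 0 ≤ (t - s) / h x := div_nonneg (by linarith) (h0 x).le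
  have h3 : (v r - v s) ^ 2 ≤ 0 := h1.trans (mul_nonpos_of_nonneg_of_nonpos h2 hE)
  have h4 : v r - v s = 0 := by
    have := le_antisymm h3 (sq_nonneg _)
    exact pow_eq_zero_iff (by norm_num) |>.1 this
  linarith

/-- weighted Cauchy-Schwarz -/
lemma wcs {h f : ℝ → ℝ} {s t : ℝ} (hst : s ≤ t) (hc : Continuous h) (h0 : ∀ r, 0 ≤ h r)
    (hf : ContinuousOn f (Icc s t)) :
    (∫ r in s..t, h r * f r) ^ 2 ≤ (∫ r in s..t, h r) * ∫ r in s..t, h r * f r ^ 2 := by
  set A := ∫ r in s..t, h r with hA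
  set I := ∫ r in s..t, h r * f r with hI
  set S := ∫ r in s..t, h r * f r ^ 2 with hS
  have i1 : IntervalIntegrable h volume s t := hc.intervalIntegrable _ _
  have i2 : IntervalIntegrable (fun r => h r * f r) volume s t :=
    intble_of_contOn hst (hc.continuousOn.mul hf)
  have i3 : IntervalIntegrable (fun r => h r * f r ^ 2) volume s t :=
    intble_of_contOn hst (hc.continuousOn.mul (hf.pow 2))
  have hA0 : 0 ≤ A := intervalIntegral.integral_nonneg hst fun r _ => h0 r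
  have key : ∀ x : ℝ, 0 ≤ S - 2 * x * I + x ^ 2 * A := by
    intro x
    have h1 : 0 ≤ ∫ r in s..t, h r * (f r - x) ^ 2 :=
      intervalIntegral.integral_nonneg hst fun r _ => mul_nonneg (h0 r) (sq_nonneg _)
    have h2 : ∫ r in s..t, h r * (f r - x) ^ 2 = S - 2 * x * I + x ^ 2 * A := by
      have e : (fun r => h r * (f r - x) ^ 2)
          = fun r => h r * f r ^ 2 - 2 * x * (h r * f r) + x ^ 2 * h r := by
        funext r; ring
      rw [e, intervalIntegral.integral_add (i3.sub (i2.const_mul _)) (i1.const_mul _),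
        intervalIntegral.integral_sub i3 (i2.const_mul _),
        intervalIntegral.integral_const_mul, intervalIntegral.integral_const_mul]
    rwa [h2] at h1
  rcases hA0.eq_or_lt with h | h
  · -- A = 0
    have hI0 : I = 0 := by
      by_contra hne
      have := key ((S + 1) / I)
      rw [← h] at this
      have e : 2 * ((S + 1) / I) * I = 2 * (S + 1) := by field_simp
      rw [e] at this
      have hS0 : 0 ≤ S := intervalIntegral.integral_nonneg hst fun r _ =>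
        mul_nonneg (h0 r) (sq_nonneg _)
      linarith
    rw [hI0, ← h]; simp
  · have := key (I / A)
    have e : S - 2 * (I / A) * I + (I / A) ^ 2 * A = S - I ^ 2 / A := by field_simp; ring
    rw [e] at this
    have h5 : I ^ 2 / A ≤ S := by linarith
    rw [div_le_iff₀ h] at h5
    linarith

/-! ### classical solutions -/

lemma lip_of_deriv {u u' : ℝ → ℝ} (hd : ∀ s, HasDerivAt u (u' s) s) (hc : Continuous u')
    (s t : ℝ) : Lip u s t := by
  obtain ⟨C, hC⟩ := isCompact_Icc.exists_bound_of_continuousOn (s := Icc s t) hc.continuousOn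
  refine ⟨C.toNNReal, (convex_Icc s t).lipschitzOnWith_of_nnnorm_hasDerivWithin_le
    (fun x _ => (hd x).hasDerivWithinAt) fun x hx => ?_⟩
  rw [← NNReal.coe_le_coe, coe_nnnorm]
  exact (hC x hx).trans (Real.le_coe_toNNReal C)

lemma lip_const (c s t : ℝ) : Lip (fun _ => c) s t :=
  ⟨0, (LipschitzWith.const c).lipschitzOnWith⟩

section sol
variable {p lam ℓ : ℝ} {h u F : ℝ → ℝ}

lemma sol_cont (S : Sol p lam ℓ h u F) : Continuous u :=
  continuous_iff_continuousAt.2 fun s => (S.du s).continuousAt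

lemma sol_contF (S : Sol p lam ℓ h u F) : Continuous F :=
  continuous_iff_continuousAt.2 fun s => (S.dF s).continuousAt

lemma sol_lip (S : Sol p lam ℓ h u F) (hc : Continuous h) (h0 : ∀ s, 0 < h s) (s t : ℝ) :
    Lip u s t :=
  lip_of_deriv S.du ((sol_contF S).div hc fun x => (h0 x).ne') s t

lemma sol_lipF (hp : 0 < p) (hp1 : p < 1) (S : Sol p lam ℓ h u F) (hc : Continuous h) (s t : ℝ) :
    Lip F s t :=
  lip_of_deriv S.dF ((continuous_const.mul (hc.mul ((continuous_gg hp hp1).comp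
    (sol_cont S)))).neg) s t

lemma sol_deriv (S : Sol p lam ℓ h u F) (h0 : ∀ s, 0 < h s) (s : ℝ) :
    h s * deriv u s = F s := by
  rw [(S.du s).deriv, mul_div_cancel₀ _ (h0 s).ne']

lemma lip_ac {v : ℝ → ℝ} {a b : ℝ} (hab : a ≤ b) (hv : Lip v a b) :
    AbsolutelyContinuousOnInterval v a b := by
  obtain ⟨K, hK⟩ := hv
  exact LipschitzOnWith.absolutelyContinuousOnInterval (K := K) (by rwa [uIcc_of_le hab])

/-- the equation, tested with a Lipschitz function -/
lemma sol_test (hp : 0 < p) (hp1 : p < 1) (S : Sol p lam ℓ h u F) (hc : Continuous h)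
    (h0 : ∀ s, 0 < h s) {v : ℝ → ℝ} {a b : ℝ} (hab : a ≤ b) (hv : Lip v a b) :
    ∫ r in a..b, h r * (deriv u r * deriv v r)
      = F b * v b - F a * v a + lam * ∫ r in a..b, h r * (gg p (u r) * v r) := by
  have h1 := (lip_ac hab (sol_lipF hp hp1 S hc a b)).integral_mul_deriv_eq_deriv_mul
    (lip_ac hab hv)
  have e1 : (fun r => h r * (deriv u r * deriv v r)) = fun r => F r * deriv v r := by
    funext r; rw [← mul_assoc, sol_deriv S h0]
  have e2 : (fun r => deriv F r * v r) = fun r => - lam * (h r * (gg p (u r) * v r)) := by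
    funext r; rw [(S.dF r).deriv]; ring
  rw [e1, h1, e2, intervalIntegral.integral_const_mul]
  ring

lemma sol_test_per (hp : 0 < p) (hp1 : p < 1) (S : Sol p lam ℓ h u F) (hc : Continuous h)
    (h0 : ∀ s, 0 < h s) (hℓ : 0 ≤ ℓ) {v : ℝ → ℝ} (hv : Lip v 0 ℓ) (hvp : v ℓ = v 0) :
    ∫ r in (0:ℝ)..ℓ, h r * (deriv u r * deriv v r)
      = lam * ∫ r in (0:ℝ)..ℓ, h r * (gg p (u r) * v r) := by
  have hF : F ℓ = F 0 := by simpa using S.perF 0
  rw [sol_test hp hp1 S hc h0 hℓ hv, hvp, hF]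
  ring

lemma sol_mean (hp : 0 < p) (hp1 : p < 1) (S : Sol p lam ℓ h u F) (hc : Continuous h)
    (h0 : ∀ s, 0 < h s) (hℓ : 0 ≤ ℓ) (hlam : 0 < lam) :
    ∫ r in (0:ℝ)..ℓ, h r * gg p (u r) = 0 := by
  have h1 := sol_test_per hp hp1 S hc h0 hℓ (lip_const 1 0 ℓ) rfl
  simp only [deriv_const, mul_zero, intervalIntegral.integral_zero, mul_one] at h1
  rcases mul_eq_zero.1 h1.symm with h2 | h2
  · exact absurd h2 hlam.ne'
  · exact h2

lemma sol_neg (S : Sol p lam ℓ h u F) : Sol p lam ℓ h (fun s => - u s) (fun s => - F s) where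
  per s := by rw [S.per]
  perF s := by rw [S.perF]
  du s := by
    have := (S.du s).neg
    rwa [← neg_div] at this
  dF s := by
    have := (S.dF s).neg
    rw [gg_neg]
    have e : -(lam * (h s * -gg p (u s))) = - -(lam * (h s * gg p (u s))) := by ring
    rw [e]; exact this

end sol

/-- periodic functions vanish / are positive if they are on `[0, ℓ]` -/
lemma forall_of_per {u : ℝ → ℝ} {ℓ : ℝ} (hℓ : 0 < ℓ) (hper : ∀ s, u (s + ℓ) = u s)
    {Q : ℝ → Prop} (hQ : ∀ s ∈ Icc 0 ℓ, Q (u s)) (s : ℝ) : Q (u s) := by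
  obtain ⟨t, ht, hts⟩ := (show Function.Periodic u ℓ from hper).exists_mem_Ico₀ hℓ s
  rw [hts]
  exact hQ t ⟨ht.1, ht.2.le⟩

/-- reduction to local statements by compactness -/
lemma compact_reduce {α : Type*} {K : Set (ℝ × ℝ)} (hK : IsCompact K) (Z : ℝ → α → ℝ × ℝ)
    (Q : ℝ → α → Prop)
    (hloc : ∀ z ∈ K, ∃ U ∈ 𝓝 z, ∀ᶠ ε in 𝓝[>] (0:ℝ), ∀ a, Z ε a ∈ U → Q ε a) :
    ∀ᶠ ε in 𝓝[>] (0:ℝ), ∀ a, Z ε a ∈ K → Q ε a := by
  refine hK.induction_on (p := fun K => ∀ᶠ ε in 𝓝[>] (0:ℝ), ∀ a, Z ε a ∈ K → Q ε a)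
    ?_ ?_ ?_ ?_
  · exact Eventually.of_forall fun ε a h => absurd h (notMem_empty _)
  · intro s t hst ht
    exact ht.mono fun ε h a ha => h a (hst ha)
  · intro s t hs ht
    filter_upwards [hs, ht] with ε h1 h2 a ha
    rcases ha with ha | ha
    · exact h1 a ha
    · exact h2 a ha
  · intro z hz
    obtain ⟨U, hU, h⟩ := hloc z hz
    exact ⟨U, mem_nhdsWithin_of_mem_nhds hU, h⟩

/-- approximate solutions of the network equations are close to exact ones -/
lemma near_net {f : ℝ × ℝ → ℝ} (hf : Continuous f) {z : ℝ × ℝ} (hz : f z ≠ 0) {C q : ℝ}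
    (hq : 0 < q) : ∃ U ∈ 𝓝 z, ∀ᶠ ε in 𝓝[>] (0:ℝ), ∀ w ∈ U, ¬ |f w| ≤ C * ε ^ q := by
  have hpos : 0 < |f z| := abs_pos.2 hz
  refine ⟨{w | |f z| / 2 < |f w|}, ?_, ?_⟩
  · exact (isOpen_lt continuous_const hf.abs).mem_nhds (show |f z| / 2 < |f z| by linarith)
  · have h1 : Tendsto (fun ε : ℝ => C * ε ^ q) (𝓝[>] 0) (𝓝 0) := by
      have : Continuous fun ε : ℝ => C * ε ^ q :=
        continuous_const.mul (continuous_id.rpow_const fun _ => Or.inr hq.le)
      have h2 := this.tendsto 0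
      simp only [Real.zero_rpow hq.ne', mul_zero] at h2
      exact h2.mono_left nhdsWithin_le_nhds
    filter_upwards [h1.eventually_lt_const (show (0:ℝ) < |f z| / 2 by positivity)] with ε hε w hw
    have hw : |f z| / 2 < |f w| := hw
    intro h
    linarith

/-- `C ε < η` eventually -/
lemma ev_small (C : ℝ) {η : ℝ} (hη : 0 < η) : ∀ᶠ ε in 𝓝[>] (0:ℝ), C * ε < η := by
  have h1 : Tendsto (fun ε : ℝ => C * ε) (𝓝[>] 0) (𝓝 0) := by
    have : Continuous fun ε : ℝ => C * ε := continuous_const.mul continuous_id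
    have h2 := this.tendsto 0
    simp only [mul_zero] at h2
    exact h2.mono_left nhdsWithin_le_nhds
  exact h1.eventually_lt_const hη

lemma ev_pos : ∀ᶠ ε in 𝓝[>] (0:ℝ), 0 < ε := self_mem_nhdsWithin

/-! ### integrals over the pieces -/

lemma int_le {f : ℝ → ℝ} {a b k : ℝ} (hab : a ≤ b) (hf : ContinuousOn f (Icc a b))
    (hk : ∀ r ∈ Icc a b, f r ≤ k) : ∫ r in a..b, f r ≤ k * (b - a) := by
  have := intervalIntegral.integral_mono_on hab (intble_of_contOn hab hf)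
    (intervalIntegrable_const (c := k)) hk
  rw [intervalIntegral.integral_const, smul_eq_mul] at this
  linarith

lemma int_const_mul {h f : ℝ → ℝ} {a b k : ℝ} (hab : a ≤ b) (hk : ∀ r ∈ Icc a b, h r = k) :
    ∫ r in a..b, h r * f r = k * ∫ r in a..b, f r := by
  rw [← intervalIntegral.integral_const_mul]
  refine intervalIntegral.integral_congr fun r hr => ?_
  rw [uIcc_of_le hab] at hr
  simp only [hk r hr]

lemma Sm_le {h v : ℝ → ℝ} {s t B A : ℝ} (hst : s ≤ t) (hc : Continuous h)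
    (hv : ContinuousOn v (Icc s t)) (h0 : ∀ r, 0 ≤ h r) (hB0 : 0 ≤ B)
    (hA : ∫ r in s..t, h r ≤ A) (hB : ∀ r ∈ Icc s t, v r ^ 2 ≤ B) : Sm h v s t ≤ A * B := by
  have h1 : Sm h v s t ≤ ∫ r in s..t, B * h r := by
    refine intervalIntegral.integral_mono_on hst
      (intble_of_contOn hst (hc.continuousOn.mul (hv.pow 2)))
      ((hc.intervalIntegrable _ _).const_mul _) fun r hr => ?_
    rw [mul_comm B]
    exact mul_le_mul_of_nonneg_left (hB r hr) (h0 r)
  rw [intervalIntegral.integral_const_mul] at h1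
  calc _ ≤ B * ∫ r in s..t, h r := h1
    _ ≤ B * A := mul_le_mul_of_nonneg_left hA hB0
    _ = A * B := mul_comm _ _

section ring
variable {P : Par} {ε : ℝ} {h : ℝ → ℝ}

lemma ring_cont (H : P.IsRing ε h) : Continuous h := H.smooth.continuous

/-- `h ≥ 1` on `[0, s5]` -/
lemma ring_ge_one (H : P.IsRing ε h) (hM : 1 ≤ P.M / ε ^ 2)
    (hm : 1 ≤ P.m / ε ^ 2) (r : ℝ) (hr : r ∈ Icc 0 (P.s5 ε)) : 1 ≤ h r := by
  rcases le_total r (P.s1 ε) with h1 | h1
  · rw [H.hH r ⟨hr.1, h1⟩]; exact hM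
  rcases le_total r (P.s2 ε) with h2 | h2
  · exact (H.hJ1 r ⟨h1, h2⟩).1
  rcases le_total r (P.s3 ε) with h3 | h3
  · exact (H.hN1 r ⟨h2, h3⟩).ge
  rcases le_total r (P.s4 ε) with h4 | h4
  · exact (H.hJ2 r ⟨h3, h4⟩).1
  · rw [H.hL r ⟨h4, hr.2⟩]; exact hm

lemma ring_mass_J3 (hε : 0 < ε) (H : P.IsRing ε h) :
    ∫ r in (P.s5 ε)..(P.s6 ε), h r ≤ P.m * ε := by
  have o := order P hε
  have := int_le (f := h) (by linarith : P.s5 ε ≤ P.s6 ε) (ring_cont H).continuousOn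
    (fun r hr => (H.hJ3 r hr).2)
  refine this.trans (le_of_eq ?_)
  have : P.s6 ε - P.s5 ε = ε ^ 3 := by simp only [Par.s5, Par.s6]; ring
  rw [this]; field_simp

lemma ring_mass_14 (hε : 0 < ε) (H : P.IsRing ε h) :
    ∫ r in (P.s1 ε)..(P.s4 ε), h r ≤ 2 * ε := by
  have o := order P hε
  have i : ∀ a b, IntervalIntegrable h volume a b := fun a b => (ring_cont H).intervalIntegrable _ _
  have h1 := int_le (f := h) (by linarith : P.s1 ε ≤ P.s2 ε) (ring_cont H).continuousOn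
    (fun r hr => (H.hJ1 r hr).2)
  have h2 := int_le (f := h) (by linarith : P.s2 ε ≤ P.s3 ε) (ring_cont H).continuousOn
    (fun r hr => (H.hN1 r hr).le)
  have h3 := int_le (f := h) (by linarith : P.s3 ε ≤ P.s4 ε) (ring_cont H).continuousOn
    (fun r hr => (H.hJ2 r hr).2)
  rw [← intervalIntegral.integral_add_adjacent_intervals (i (P.s1 ε) (P.s2 ε)) (i _ (P.s4 ε)),
    ← intervalIntegral.integral_add_adjacent_intervals (i (P.s2 ε) (P.s3 ε)) (i _ (P.s4 ε))]
  have e1 : P.M / ε ^ 2 * (P.s2 ε - P.s1 ε) = P.M * ε := by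
    simp only [Par.s1, Par.s2]; field_simp; ring
  have e2 : 1 * (P.s3 ε - P.s2 ε) = ε := by simp only [Par.s2, Par.s3]; ring
  have e3 : P.m / ε ^ 2 * (P.s4 ε - P.s3 ε) = P.m * ε := by
    simp only [Par.s3, Par.s4]; field_simp; ring
  have := P.hMm
  have : P.M * ε + ε + P.m * ε = 2 * ε := by
    have : P.M * ε + ε + P.m * ε = (P.M + P.m + 1) * ε := by ring
    rw [this, P.hMm]; ring
  linarith

end ring

end H97
end Pool.Agent.Lib.MP_e46711_an
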