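import Pool.Agent.Lib.MP_e46711_an.H97.Ring

/-!
Common facts for modules C6 and C8, part 2: masses of the ring.
-/

open Set Filter Topology MeasureTheory
open scoped ContDiff

namespace Pool.Agent.Lib.MP_e46711_an
namespace H97

lemma split {f : ℝ → ℝ} {a b c : ℝ} (hf : IntervalIntegrable f volume a c) (hab : a ≤ b)
    (hbc : b ≤ c) : ∫ r in a..c, f r = (∫ r in a..b, f r) + ∫ r in b..c, f r := by
  have h1 : IntervalIntegrable f volume a b := hf.mono_set (by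
    rw [uIcc_of_le hab, uIcc_of_le (hab.trans hbc)]; exact Icc_subset_Icc le_rfl hbc)
  have h2 : IntervalIntegrable f volume b c := hf.mono_set (by
    rw [uIcc_of_le hbc, uIcc_of_le (hab.trans hbc)]; exact Icc_subset_Icc hab le_rfl)
  exact (intervalIntegral.integral_add_adjacent_intervals h1 h2).symm

lemma iint_mono {f : ℝ → ℝ} {a b s t : ℝ} (hf : IntervalIntegrable f volume s t)
    (h1 : s ≤ a) (h2 : a ≤ b) (h3 : b ≤ t) : IntervalIntegrable f volume a b :=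
  hf.mono_set (by
    rw [uIcc_of_le h2, uIcc_of_le (h1.trans (h2.trans h3))]; exact Icc_subset_Icc h1 h3)

/-- splitting of an integral over the ring -/
lemma split6 {P : Par} {ε : ℝ} (hε : 0 < ε) {f : ℝ → ℝ}
    (hf : IntervalIntegrable f volume 0 (P.ell ε)) :
    ∫ r in (0:ℝ)..(P.ell ε), f r = (∫ r in (0:ℝ)..(P.s1 ε), f r)
      + (∫ r in (P.s1 ε)..(P.s4 ε), f r) + (∫ r in (P.s4 ε)..(P.s5 ε), f r)
      + (∫ r in (P.s5 ε)..(P.s6 ε), f r) + (∫ r in (P.s6 ε)..(P.s14 ε), f r)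
      + ∫ r in (P.s14 ε)..(P.ell ε), f r := by
  have o := order P hε
  rw [split hf (by linarith : (0:ℝ) ≤ P.s1 ε) (by linarith),
    split (iint_mono hf (by linarith) (by linarith) le_rfl) (by linarith : P.s1 ε ≤ P.s4 ε)
      (by linarith),
    split (iint_mono hf (by linarith) (by linarith) le_rfl) (by linarith : P.s4 ε ≤ P.s5 ε)
      (by linarith),
    split (iint_mono hf (by linarith) (by linarith) le_rfl) (by linarith : P.s5 ε ≤ P.s6 ε)
      (by linarith),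
    split (iint_mono hf (by linarith) (by linarith) le_rfl) (by linarith : P.s6 ε ≤ P.s14 ε)
      (by linarith)]
  ring

section ring
variable {P : Par} {ε : ℝ} {h : ℝ → ℝ}

lemma intH (H : P.IsRing ε h) (hε : 0 < ε) (f : ℝ → ℝ) :
    (∫ r in (0:ℝ)..(P.s1 ε), h r * f r) + (∫ r in (P.s14 ε)..(P.ell ε), h r * f r)
      = P.M / ε * ((((∫ r in (0:ℝ)..(P.s1 ε), f r)) + ∫ r in (P.s14 ε)..(P.ell ε), f r) / ε) := by
  have o := order P hε
  rw [int_const_mul (by linarith : (0:ℝ) ≤ P.s1 ε) H.hH,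
    int_const_mul (by linarith : P.s14 ε ≤ P.ell ε) H.hH']
  field_simp

lemma intL (H : P.IsRing ε h) (hε : 0 < ε) (f : ℝ → ℝ) :
    (∫ r in (P.s4 ε)..(P.s5 ε), h r * f r)
      = P.m / ε * ((∫ r in (P.s4 ε)..(P.s5 ε), f r) / ε) := by
  have o := order P hε
  rw [int_const_mul (by linarith : P.s4 ε ≤ P.s5 ε) H.hL]
  field_simp

lemma lenH (P : Par) (ε c : ℝ) : (∫ _r in (0:ℝ)..(P.s1 ε), c) + (∫ _r in (P.s14 ε)..(P.ell ε), c)
    = ε * c := by
  simp only [intervalIntegral.integral_const, smul_eq_mul, Par.s1, Par.s14, Par.ell]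
  ring

lemma lenL (P : Par) (ε c : ℝ) : (∫ _r in (P.s4 ε)..(P.s5 ε), c) = ε * c := by
  simp only [intervalIntegral.integral_const, smul_eq_mul, Par.s4, Par.s5]
  ring

/-- the lumps have mass `1/ε` -/
lemma mass_lumps (H : P.IsRing ε h) (hε : 0 < ε) :
    (∫ r in (0:ℝ)..(P.s1 ε), h r) + (∫ r in (P.s4 ε)..(P.s5 ε), h r)
      + (∫ r in (P.s14 ε)..(P.ell ε), h r) = 1 / ε := by
  have h1 := intH H hε (fun _ => 1)
  have h2 := intL H hε (fun _ => 1)
  rw [lenH] at h1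
  rw [lenL] at h2
  simp only [mul_one] at h1 h2
  have : P.M / ε * (ε / ε) + P.m / ε * (ε / ε) = 1 / ε := by
    rw [div_self hε.ne', mul_one, mul_one, ← add_div, P.hMm]
  linarith

end ring

lemma L2_pos (P : Par) : 0 < P.L2 := by linarith [P.hL0, P.hL01, P.hL12]
lemma L1_pos (P : Par) : 0 < P.L1 := by linarith [P.hL0, P.hL01, P.hL12]

/-- mass of the passive part -/
lemma mass_pas (hPas : PassiveStatement) (P : Par) : ∃ C > 0, ∀ᶠ ε in 𝓝[>] (0:ℝ),
    ∀ h, P.IsRing ε h → ∫ r in (P.s6 ε)..(P.s14 ε), h r ≤ C := by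
  obtain ⟨ν, hν, C, hC, hev⟩ := hPas P
  have hL2 := L2_pos P
  have hν0 := hν.1
  have hpos : 0 < (1 + ν) * P.L2 := by positivity
  refine ⟨C / ((1 + ν) * P.L2), by positivity, ?_⟩
  filter_upwards [hev] with ε h1 h H
  have h2 := h1 h H (fun _ => 1) (lip_const 1 _ _)
  simp only [Sm, En, deriv_const] at h2
  simp only [one_pow, mul_one, ne_eq, OfNat.ofNat_ne_zero, not_false_eq_true, zero_pow, mul_zero,
    intervalIntegral.integral_zero, zero_add] at h2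
  rw [le_div_iff₀ hpos]
  linarith

/-- total mass -/
lemma mass_total (hPas : PassiveStatement) (P : Par) : ∃ C > 0, ∀ᶠ ε in 𝓝[>] (0:ℝ),
    ∀ h, P.IsRing ε h → 1 / ε ≤ (∫ r in (0:ℝ)..(P.ell ε), h r) ∧
      (∫ r in (0:ℝ)..(P.ell ε), h r) ≤ 1 / ε + C ∧
      (∫ r in (P.s1 ε)..(P.s4 ε), h r) ≤ C ∧ (∫ r in (P.s5 ε)..(P.s14 ε), h r) ≤ C := by
  obtain ⟨C, hC, hev⟩ := mass_pas hPas P
  refine ⟨C + 3, by linarith, ?_⟩
  filter_upwards [hev, ev_pos, ev_small 1 one_pos] with ε h1 hε hε1 h H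
  have o := order P hε
  have hi : IntervalIntegrable h volume 0 (P.ell ε) := (ring_cont H).intervalIntegrable _ _
  have i : ∀ a b, IntervalIntegrable h volume a b := fun a b => (ring_cont H).intervalIntegrable _ _
  have h2 := split6 (P := P) hε hi
  have h3 := mass_lumps H hε
  have h4 := ring_mass_14 hε H
  have h5 := ring_mass_J3 hε H
  have h6 := h1 h H
  have hnn : ∀ a b, a ≤ b → 0 ≤ ∫ r in a..b, h r := fun a b hab =>
    intervalIntegral.integral_nonneg hab fun r _ => (H.pos r).le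
  have h7 := hnn (P.s1 ε) (P.s4 ε) (by linarith)
  have h8 := hnn (P.s5 ε) (P.s6 ε) (by linarith)
  have h9 := hnn (P.s6 ε) (P.s14 ε) (by linarith)
  have h10 := split (i (P.s5 ε) (P.s14 ε)) (by linarith : P.s5 ε ≤ P.s6 ε) (by linarith)
  have hm1 : P.m ≤ 1 := by linarith [P.hMm, P.hM]
  have hme : P.m * ε ≤ 1 := by nlinarith [P.hm]
  refine ⟨by linarith, by linarith, by linarith, by linarith⟩

/-- small parts of the ring -/
lemma small_parts (P : Par) : ∃ C > 0, ∀ᶠ ε in 𝓝[>] (0:ℝ), ∀ h, P.IsRing ε h →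
    ∀ v, Lip v 0 (P.ell ε) → v 0 = 0 →
      Sm h v (P.s1 ε) (P.s4 ε) + Sm h v (P.s5 ε) (P.s6 ε) ≤ C * ε ^ 2 * En h v 0 (P.ell ε) := by
  have hc := P.hc
  have hm := P.hm
  refine ⟨6 + P.m * (6 + 2 / P.c), by positivity, ?_⟩
  have e1 : ∀ᶠ ε in 𝓝[>] (0:ℝ), ε < 1 / 2 := by
    have := ev_small 1 (show (0:ℝ) < 1 / 2 by norm_num)
    simpa using this
  have e2 : ∀ k : ℝ, 0 < k → ∀ᶠ ε in 𝓝[>] (0:ℝ), 1 ≤ k / ε ^ 2 := by
    intro k hk
    filter_upwards [ev_small 1 hk, e1, ev_pos] with ε h1 h2 hε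
    rw [le_div_iff₀ (by positivity)]
    nlinarith
  filter_upwards [e1, e2 P.M P.hM, e2 P.m P.hm, ev_pos] with ε hε1 hM hm1 hε h H v hv hv0
  have o := order P hε
  have hcH := ring_cont H
  have h0 : ∀ r, 0 ≤ h r := fun r => (H.pos r).le
  set E := En h v 0 (P.ell ε) with hE
  have hE0 : 0 ≤ E := En_nonneg (by linarith) h0
  have b1 : ∀ r ∈ Icc 0 (P.s5 ε), v r ^ 2 ≤ 3 * ε * E := by
    intro r hr
    have h1 := sq_le_of_zero (h := h) (v := v) hr one_pos hcH h0 (ring_ge_one H hM hm1)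
      (lip_mono hv le_rfl (by linarith))
    rw [hv0, sub_zero] at h1
    have h2 := En_mono (h := h) (v := v) (le_refl (0:ℝ)) (by linarith : (0:ℝ) ≤ P.s5 ε)
      (by linarith : P.s5 ε ≤ P.ell ε) hcH h0 hv
    have h3 : P.s5 ε ≤ 3 * ε := by
      simp only [Par.s5]
      nlinarith [mul_pos hε hε]
    have h4 : 0 ≤ En h v 0 (P.s5 ε) := En_nonneg (by linarith) h0
    calc v r ^ 2 ≤ (P.s5 ε - 0) / 1 * En h v 0 (P.s5 ε) := h1
      _ = P.s5 ε * En h v 0 (P.s5 ε) := by ring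
      _ ≤ 3 * ε * En h v 0 (P.s5 ε) := mul_le_mul_of_nonneg_right h3 h4
      _ ≤ 3 * ε * E := mul_le_mul_of_nonneg_left h2 (by positivity)
  have b2 : ∀ r ∈ Icc (P.s5 ε) (P.s6 ε), v r ^ 2 ≤ (6 + 2 / P.c) * ε * E := by
    intro r hr
    have h1 := sq_le_of_zero (h := h) (v := v) (k := P.c * ε ^ 2) hr (by positivity) hcH h0
      (fun x hx => (H.hJ3 x hx).1) (lip_mono hv (by linarith) (by linarith))
    have h2 := En_mono (h := h) (v := v) (by linarith : (0:ℝ) ≤ P.s5 ε)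
      (by linarith : P.s5 ε ≤ P.s6 ε) (by linarith : P.s6 ε ≤ P.ell ε) hcH h0 hv
    have h3 : (P.s6 ε - P.s5 ε) / (P.c * ε ^ 2) = ε / P.c := by
      simp only [Par.s5, Par.s6]; field_simp; ring
    rw [h3] at h1
    have h4 := b1 (P.s5 ε) ⟨by linarith, le_rfl⟩
    have h5 : (v r - v (P.s5 ε)) ^ 2 ≤ ε / P.c * E :=
      h1.trans (mul_le_mul_of_nonneg_left h2 (by positivity))
    have h6 : v r ^ 2 ≤ 2 * (v r - v (P.s5 ε)) ^ 2 + 2 * v (P.s5 ε) ^ 2 := by
      nlinarith [sq_nonneg (v r - 2 * v (P.s5 ε))]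
    calc v r ^ 2 ≤ 2 * (v r - v (P.s5 ε)) ^ 2 + 2 * v (P.s5 ε) ^ 2 := h6
      _ ≤ 2 * (ε / P.c * E) + 2 * (3 * ε * E) := by linarith
      _ = (6 + 2 / P.c) * ε * E := by ring
  have c1 := Sm_le (h := h) (v := v) (by linarith : P.s1 ε ≤ P.s4 ε) hcH
    ((lip_cont hv).mono (Icc_subset_Icc (by linarith) (by linarith))) h0
    (show 0 ≤ 3 * ε * E by positivity) (ring_mass_14 hε H)
    (fun r hr => b1 r ⟨by linarith [hr.1], by linarith [hr.2]⟩)
  have c2 := Sm_le (h := h) (v := v) (by linarith : P.s5 ε ≤ P.s6 ε) hcH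
    ((lip_cont hv).mono (Icc_subset_Icc (by linarith) (by linarith))) h0
    (show 0 ≤ (6 + 2 / P.c) * ε * E by positivity) (ring_mass_J3 hε H) b2
  calc _ ≤ 2 * ε * (3 * ε * E) + P.m * ε * ((6 + 2 / P.c) * ε * E) := by linarith
    _ = (6 + P.m * (6 + 2 / P.c)) * ε ^ 2 * E := by ring

end H97
end Pool.Agent.Lib.MP_e46711_an
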